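import Mathlib

/-! Among `2p-1` nonzero residues mod `p`, not all equal, some `p` have a Vandermonde matrix with
nonzero permanent. -/

namespace Pool.Agent.P.MP_50d982_co

open Finset Equiv

section Up

variable {ι K : Type*} [DecidableEq ι] [Field K]

omit [Field K] in
theorem const_of_swap (G : Finset ι → K) (A : Finset ι) (k : ℕ)
    (h : ∀ R : Finset ι, ∀ x y : ι, R ⊆ A → R.card = k → x ∈ A → y ∈ A → x ∉ R → y ∉ R →
      G (insert x R) = G (insert y R)) :
    ∀ (n : ℕ) (R S : Finset ι), (R \ S).card = n → R ⊆ A → S ⊆ A → R.card = k + 1 →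
      S.card = k + 1 → G R = G S := by
  intro n
  induction n with
  | zero =>
    intro R S hn _ _ hR hS
    have h1 : R ⊆ S := Finset.sdiff_eq_empty_iff_subset.1 (Finset.card_eq_zero.1 hn)
    rw [Finset.eq_of_subset_of_card_le h1 (by omega)]
  | succ n ih =>
    intro R S hn hRA hSA hR hS
    obtain ⟨x, hx⟩ : (R \ S).Nonempty := Finset.card_pos.1 (by omega)
    have hc : (S \ R).card = (R \ S).card := Finset.card_sdiff_comm (by omega)
    obtain ⟨y, hy⟩ : (S \ R).Nonempty := Finset.card_pos.1 (by omega)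
    rw [Finset.mem_sdiff] at hx hy
    have e1 : R = insert x (R.erase x) := (Finset.insert_erase hx.1).symm
    have hce : (R.erase x).card = k := by rw [Finset.card_erase_of_mem hx.1]; omega
    have hye : y ∉ R.erase x := fun hh => hy.2 (Finset.mem_of_mem_erase hh)
    have e2 : G R = G (insert y (R.erase x)) := by
      conv_lhs => rw [e1]
      exact h _ x y ((Finset.erase_subset _ _).trans hRA) hce (hRA hx.1) (hSA hy.1)
        (Finset.notMem_erase _ _) hye
    rw [e2]
    refine ih _ S ?_ ?_ hSA ?_ hS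
    · have e3 : insert y (R.erase x) \ S = (R \ S).erase x := by
        ext z
        simp only [Finset.mem_sdiff, Finset.mem_insert, Finset.mem_erase]
        constructor
        · rintro ⟨rfl | h1, h2⟩
          · exact absurd hy.1 h2
          · exact ⟨h1.1, h1.2, h2⟩
        · rintro ⟨h1, h2, h3⟩
          exact ⟨Or.inr ⟨h1, h2⟩, h3⟩
      rw [e3, Finset.card_erase_of_mem (Finset.mem_sdiff.2 hx)]; omega
    · exact Finset.insert_subset (hSA hy.1) ((Finset.erase_subset _ _).trans hRA)
    · rw [Finset.card_insert_of_notMem hye, hce]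

/-- The kernel of the inclusion matrix of `k`-sets versus sets with one more element. -/
theorem up_kernel : ∀ (k : ℕ) (A : Finset ι) (G : Finset ι → K),
    2 * k + 1 ≤ A.card → (∀ l : ℕ, 1 ≤ l → l ≤ k → (l : K) ≠ 0) →
    (∀ S ⊆ A, S.card = k + 1 → ∑ i ∈ S, G (S.erase i) = 0) →
    ∃ g : K, ((k + 1 : ℕ) : K) * g = 0 ∧ ∀ R ⊆ A, R.card = k → G R = g := by
  intro k
  have fin : ∀ (k : ℕ) (A : Finset ι) (G : Finset ι → K) (g : K), 2 * k + 1 ≤ A.card →
      (∀ S ⊆ A, S.card = k + 1 → ∑ i ∈ S, G (S.erase i) = 0) →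
      (∀ R ⊆ A, R.card = k → G R = g) → ((k + 1 : ℕ) : K) * g = 0 := by
    intro k A G g hA hG hg
    obtain ⟨S, hSA, hS⟩ := Finset.exists_subset_card_eq (s := A) (n := k + 1) (by omega)
    have h1 := hG S hSA hS
    rw [Finset.sum_congr rfl (g := fun _ => g) fun i hi =>
      hg _ ((Finset.erase_subset _ _).trans hSA) (by rw [Finset.card_erase_of_mem hi]; omega)] at h1
    rw [Finset.sum_const, hS, nsmul_eq_mul] at h1
    exact h1
  induction k with
  | zero =>
    intro A G hA _ hG
    have hg : ∀ R ⊆ A, R.card = 0 → G R = G ∅ := by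
      intro R _ hR; rw [Finset.card_eq_zero.1 hR]
    exact ⟨G ∅, fin 0 A G _ hA hG hg, hg⟩
  | succ k ih =>
    intro A G hA hl hG
    have hswap : ∀ R : Finset ι, ∀ x y : ι, R ⊆ A → R.card = k → x ∈ A → y ∈ A → x ∉ R → y ∉ R →
        G (insert x R) = G (insert y R) := by
      intro R x y hRA hR hx hy hxR hyR
      by_cases hxy : x = y
      · rw [hxy]
      have hcard : 2 * k + 1 ≤ ((A.erase x).erase y).card := by
        rw [Finset.card_erase_of_mem (Finset.mem_erase.2 ⟨Ne.symm hxy, hy⟩),
          Finset.card_erase_of_mem hx]; omega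
      have key : ∀ z ∈ A, ∀ S ⊆ A, z ∉ S → S.card = k + 1 →
          ∑ i ∈ S, G (insert z (S.erase i)) = - G S := by
        intro z hz S hSA hzS hS
        have h1 := hG (insert z S) (Finset.insert_subset hz hSA)
          (by rw [Finset.card_insert_of_notMem hzS, hS])
        rw [Finset.sum_insert hzS, Finset.erase_insert hzS] at h1
        rw [eq_neg_iff_add_eq_zero, add_comm, ← h1]
        congr 1
        refine Finset.sum_congr rfl fun i hi => ?_
        rw [Finset.erase_insert_of_ne (show z ≠ i from fun h => hzS (h ▸ hi))]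
      obtain ⟨h, hh, hc⟩ := ih ((A.erase x).erase y)
        (fun R => G (insert x R) - G (insert y R)) hcard (fun l h1 h2 => hl l h1 (by omega)) (by
          intro S hSA hS
          have hSA' : S ⊆ A := hSA.trans ((Finset.erase_subset _ _).trans (Finset.erase_subset _ _))
          have hxS : x ∉ S := fun h => Finset.notMem_erase x A (Finset.mem_of_mem_erase (hSA h))
          have hyS : y ∉ S := fun h => Finset.notMem_erase y _ (hSA h)
          rw [Finset.sum_sub_distrib, key x hx S hSA' hxS hS, key y hy S hSA' hyS hS, sub_self])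
      have h0 : h = 0 := (mul_eq_zero.1 hh).resolve_left (hl (k + 1) (by omega) le_rfl)
      have h2 := hc R (by
        intro z hz
        exact Finset.mem_erase.2 ⟨fun h => hyR (h ▸ hz),
          Finset.mem_erase.2 ⟨fun h => hxR (h ▸ hz), hRA hz⟩⟩) hR
      rw [h0] at h2
      exact sub_eq_zero.1 h2
    obtain ⟨R0, hR0A, hR0⟩ := Finset.exists_subset_card_eq (s := A) (n := k + 1) (by omega)
    have hg : ∀ R ⊆ A, R.card = k + 1 → G R = G R0 := fun R hRA hR =>
      const_of_swap G A k hswap _ R R0 rfl hRA hR0A hR hR0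
    exact ⟨G R0, fin (k + 1) A G _ hA hG hg, hg⟩

end Up

section Q

variable {ι K : Type*} [DecidableEq ι] [Fintype ι] [Field K]

/-- The permanent of the columns `c` on the rows `S`. -/
def per {k : ℕ} (c : Fin k → ι → K) (S : Finset ι) : K :=
  ∑ f : Fin k → ι, if Finset.univ.image f = S then ∏ j, c j (f j) else 0

theorem per_succ {k : ℕ} (c : Fin (k + 1) → ι → K) (S : Finset ι) (hS : S.card = k + 1) :
    per c S = ∑ i ∈ S, c 0 i * per (fun j => c j.succ) (S.erase i) := by
  unfold per
  rw [← Fintype.sum_equiv (Fin.consEquiv fun _ : Fin (k + 1) => ι)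
    (fun x => if Finset.univ.image (Fin.cons x.1 x.2 : Fin (k + 1) → ι) = S then
      ∏ j, c j ((Fin.cons x.1 x.2 : Fin (k + 1) → ι) j) else 0) _ (fun x => rfl)]
  rw [Fintype.sum_prod_type]
  have himg : ∀ (i : ι) (g : Fin k → ι), Finset.univ.image (Fin.cons i g : Fin (k + 1) → ι)
      = insert i (Finset.univ.image g) := by
    intro i g
    ext z
    simp only [Finset.mem_image, Finset.mem_univ, true_and, Finset.mem_insert, Fin.exists_fin_succ,
      Fin.cons_zero, Fin.cons_succ]
    constructor
    · rintro (h | h)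
      · exact Or.inl h.symm
      · exact Or.inr h
    · rintro (h | h)
      · exact Or.inl h.symm
      · exact Or.inr h
  have hiff : ∀ (i : ι) (g : Fin k → ι), insert i (Finset.univ.image g) = S ↔
      (i ∈ S ∧ Finset.univ.image g = S.erase i) := by
    intro i g
    constructor
    · intro h
      have hi : i ∈ S := h ▸ Finset.mem_insert_self _ _
      refine ⟨hi, ?_⟩
      symm
      refine Finset.eq_of_subset_of_card_le ?_ ?_
      · intro z hz
        rw [Finset.mem_erase, ← h, Finset.mem_insert] at hz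
        exact hz.2.resolve_left hz.1
      · rw [Finset.card_erase_of_mem hi, hS]
        exact Finset.card_image_le.trans (by simp)
    · rintro ⟨hi, h⟩
      rw [h, Finset.insert_erase hi]
  rw [← Finset.sum_subset (Finset.subset_univ S)]
  · refine Finset.sum_congr rfl fun i hi => ?_
    rw [Finset.mul_sum]
    refine Finset.sum_congr rfl fun g _ => ?_
    simp only [himg, hiff, hi, true_and, Fin.prod_univ_succ, Fin.cons_zero, Fin.cons_succ]
    split_ifs <;> simp
  · intro i _ hi
    refine Finset.sum_eq_zero fun g _ => ?_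
    simp only [himg, hiff, hi, false_and, if_false]

theorem per_perm {k : ℕ} (c : Fin k → ι → K) (σ : Perm (Fin k)) (S : Finset ι) :
    per (fun j => c (σ j)) S = per c S := by
  unfold per
  symm
  refine Fintype.sum_equiv (Equiv.arrowCongr σ.symm (Equiv.refl ι)) _ _ fun f => ?_
  have h1 : Finset.univ.image ((Equiv.arrowCongr σ.symm (Equiv.refl ι)) f) = Finset.univ.image f := by
    ext z
    simp only [Finset.mem_image, Finset.mem_univ, true_and, Equiv.arrowCongr_apply,
      Equiv.symm_symm, Equiv.coe_refl, Function.comp_apply, id]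
    constructor
    · rintro ⟨j, h⟩; exact ⟨_, h⟩
    · rintro ⟨j, h⟩; exact ⟨σ.symm j, by simpa using h⟩
  rw [h1]
  split_ifs
  · exact (Equiv.prod_comp σ fun j => c j (f j)).symm
  · rfl

theorem per_scale {k : ℕ} (c : Fin k → ι → K) (b : ι → K) (S : Finset ι) (hS : S.card = k) :
    per (fun j i => b i * c j i) S = (∏ i ∈ S, b i) * per c S := by
  unfold per
  rw [Finset.mul_sum]
  refine Finset.sum_congr rfl fun f _ => ?_
  split_ifs with h
  · have hinj : Set.InjOn f (Finset.univ : Finset (Fin k)) :=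
      Finset.card_image_iff.1 (by rw [h, hS]; simp)
    rw [Finset.prod_mul_distrib, ← h, Finset.prod_image hinj]
  · simp

theorem per_eq_sum_perm {k : ℕ} (c : Fin k → ι → K) (e : Fin k → ι) (he : Function.Injective e) :
    per c (Finset.univ.image e) = ∑ τ : Perm (Fin k), ∏ t, c (τ t) (e t) := by
  unfold per
  rw [← Finset.sum_filter]
  symm
  refine Finset.sum_bij (fun τ _ => fun j => e (τ.symm j)) ?_ ?_ ?_ ?_
  · intro τ _
    rw [Finset.mem_filter]
    refine ⟨Finset.mem_univ _, ?_⟩
    ext z
    simp only [Finset.mem_image, Finset.mem_univ, true_and]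
    constructor
    · rintro ⟨j, h⟩; exact ⟨_, h⟩
    · rintro ⟨j, h⟩; exact ⟨τ j, by simpa using h⟩
  · intro τ _ τ' _ h
    have : τ.symm = τ'.symm := Equiv.ext fun j => he (congrFun h j)
    exact Equiv.symm_bijective.1 this
  · intro f hf
    rw [Finset.mem_filter] at hf
    have hinj : Function.Injective f := by
      have : Set.InjOn f (Finset.univ : Finset (Fin k)) :=
        Finset.card_image_iff.1 (by rw [hf.2, Finset.card_image_of_injective _ he])
      intro x y hxy
      exact this (by simp) (by simp) hxy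
    have hex : ∀ j, ∃ t, e t = f j := by
      intro j
      have : f j ∈ Finset.univ.image e := hf.2 ▸ Finset.mem_image_of_mem f (Finset.mem_univ j)
      simpa using this
    choose s hs using hex
    have hsinj : Function.Injective s := fun x y hxy => hinj (by rw [← hs, ← hs, hxy])
    refine ⟨(Equiv.ofBijective s (Finite.injective_iff_bijective.1 hsinj)).symm, Finset.mem_univ _, ?_⟩
    funext j
    simpa using hs j
  · intro τ _
    rw [← Equiv.prod_comp τ fun j => c j (e (τ.symm j))]
    simp

/-- If the last expansion vanishes everywhere, the normalised smaller permanent is constant. -/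
theorem per_kernel {k : ℕ} (c : Fin (k + 1) → ι → K) (hc : ∀ i, c 0 i ≠ 0)
    (hN : 2 * k + 1 ≤ Fintype.card ι) (hl : ∀ l : ℕ, 1 ≤ l → l ≤ k → (l : K) ≠ 0)
    (h : ∀ S : Finset ι, S.card = k + 1 → per c S = 0) :
    ∃ g : K, ((k + 1 : ℕ) : K) * g = 0 ∧ ∀ R : Finset ι, R.card = k →
      per (fun j => c j.succ) R = g * ∏ i ∈ R, c 0 i := by
  obtain ⟨g, hg, hR⟩ := up_kernel (ι := ι) (K := K) k Finset.univ
    (fun R => per (fun j => c j.succ) R / ∏ i ∈ R, c 0 i) (by simpa using hN) hl (by
      intro S _ hS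
      have h1 := h S hS
      rw [per_succ c S hS] at h1
      have h2 : ∑ i ∈ S, per (fun j => c j.succ) (S.erase i) / ∏ i ∈ S.erase i, c 0 i
          = (∑ i ∈ S, c 0 i * per (fun j => c j.succ) (S.erase i)) / ∏ i ∈ S, c 0 i := by
        rw [Finset.sum_div]
        refine Finset.sum_congr rfl fun i hi => ?_
        rw [← Finset.mul_prod_erase S _ hi, mul_div_mul_left _ _ (hc i)]
      rw [h2, h1, zero_div])
  refine ⟨g, hg, fun R hRc => ?_⟩
  have h3 := hR R (Finset.subset_univ _) hRc
  rw [div_eq_iff (Finset.prod_ne_zero_iff.2 fun i _ => hc i)] at h3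
  exact h3

theorem per_exists_ne_zero : ∀ (k : ℕ) (c : Fin k → ι → K), (∀ j i, c j i ≠ 0) →
    2 * k ≤ Fintype.card ι + 1 → (∀ l : ℕ, 1 ≤ l → l ≤ k → (l : K) ≠ 0) →
    ∃ S : Finset ι, S.card = k ∧ per c S ≠ 0 := by
  intro k
  induction k with
  | zero =>
    intro c _ _ _
    refine ⟨∅, rfl, ?_⟩
    simp [per]
  | succ k ih =>
    intro c hc hN hl
    by_contra hcon
    push Not at hcon
    obtain ⟨g, hg, hR⟩ := per_kernel c (hc 0) (by omega) (fun l h1 h2 => hl l h1 (by omega)) hcon
    have h0 : g = 0 := (mul_eq_zero.1 hg).resolve_left (hl (k + 1) (by omega) le_rfl)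
    obtain ⟨S, hS, hne⟩ := ih (fun j => c j.succ) (fun j i => hc _ i) (by omega)
      (fun l h1 h2 => hl l h1 (by omega))
    exact hne (by rw [hR S hS, h0, zero_mul])

end Q

theorem exists_per_ne_zero {ι : Type*} [DecidableEq ι] [Fintype ι] {p : ℕ} [hp : Fact p.Prime]
    (hN : 2 * p ≤ Fintype.card ι + 1) (a : ι → ZMod p) (ha : ∀ i, a i ≠ 0) (i0 i1 : ι)
    (hne : a i0 ≠ a i1) :
    ∃ e : Fin p → ι, Function.Injective e ∧
      ∑ τ : Perm (Fin p), ∏ t, a (e t) ^ (τ t : ℕ) ≠ 0 := by
  obtain ⟨k, rfl⟩ : ∃ k, p = k + 1 + 1 := ⟨p - 2, by have := hp.out.two_le; omega⟩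
  have hl : ∀ l : ℕ, 1 ≤ l → l ≤ k + 1 → (l : ZMod (k + 1 + 1)) ≠ 0 := by
    intro l h1 h2 h
    have := Nat.le_of_dvd (by omega) ((ZMod.natCast_eq_zero_iff _ _).1 h)
    omega
  let c : Fin (k + 1 + 1) → ι → ZMod (k + 1 + 1) := fun j i => a i ^ (j : ℕ)
  have main : ∃ S : Finset ι, S.card = k + 1 + 1 ∧ per c S ≠ 0 := by
    by_contra hcon
    push Not at hcon
    obtain ⟨g, -, hR⟩ := per_kernel c (fun i => pow_ne_zero _ (ha i)) (by omega) hl hcon
    have hR' : ∀ R : Finset ι, R.card = k + 1 → per (fun j => c j.succ) R = g := by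
      intro R hRc
      rw [hR R hRc]; simp [c]
    obtain ⟨S, hS, hSne⟩ := per_exists_ne_zero (k + 1) (fun j => c j.succ)
      (fun j i => pow_ne_zero _ (ha i)) (by omega) hl
    have hg : g ≠ 0 := by rw [← hR' S hS]; exact hSne
    let c0 : Fin (k + 1) → ι → ZMod (k + 1 + 1) := fun j i => a i ^ (j : ℕ)
    have e1 : (fun j : Fin (k + 1) => c j.succ) = fun j i => a i * c0 j i := by
      funext j i
      simp only [c, c0, Fin.val_succ, pow_succ]; ring
    have e2 : (fun j : Fin (k + 1) => c j.succ) = fun j => c0 (finRotate (k + 1) j) := by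
      funext j i
      simp only [c, c0, Fin.val_succ]
      by_cases hj : j = Fin.last k
      · subst hj
        rw [finRotate_last, Fin.val_last, Fin.val_zero, pow_zero]
        simpa using ZMod.pow_card_sub_one_eq_one (ha i)
      · rw [coe_finRotate_of_ne_last hj]
    have hprod : ∀ R : Finset ι, R.card = k + 1 → ∏ i ∈ R, a i = 1 := by
      intro R hRc
      have h1 : per c0 R = g := by rw [← hR' R hRc, e2, per_perm]
      have h2 : (∏ i ∈ R, a i) * per c0 R = g := by rw [← hR' R hRc, e1, per_scale _ _ _ hRc]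
      rw [h1] at h2
      exact mul_right_cancel₀ hg (by rw [h2, one_mul])
    have h01 : i0 ≠ i1 := fun h => hne (by rw [h])
    obtain ⟨R, hRA, hRc⟩ := Finset.exists_subset_card_eq
      (s := ((Finset.univ : Finset ι).erase i0).erase i1) (n := k) (by
        rw [Finset.card_erase_of_mem (Finset.mem_erase.2 ⟨Ne.symm h01, Finset.mem_univ _⟩),
          Finset.card_erase_of_mem (Finset.mem_univ _), Finset.card_univ]; omega)
    have h0R : i0 ∉ R := fun h => Finset.notMem_erase i0 _ (Finset.mem_of_mem_erase (hRA h))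
    have h1R : i1 ∉ R := fun h => Finset.notMem_erase i1 _ (hRA h)
    have q0 := hprod (insert i0 R) (by rw [Finset.card_insert_of_notMem h0R, hRc])
    have q1 := hprod (insert i1 R) (by rw [Finset.card_insert_of_notMem h1R, hRc])
    rw [Finset.prod_insert h0R] at q0
    rw [Finset.prod_insert h1R] at q1
    exact hne (mul_right_cancel₀ (Finset.prod_ne_zero_iff.2 fun i _ => ha i) (q0.trans q1.symm))
  obtain ⟨S, hS, hSne⟩ := main
  have hex : ∃ e : Fin (k + 1 + 1) → ι, Finset.univ.image e = S := by
    by_contra hcon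
    push Not at hcon
    exact hSne (Finset.sum_eq_zero fun f _ => if_neg (hcon f))
  obtain ⟨e, he⟩ := hex
  have hinj : Function.Injective e := by
    have : Set.InjOn e (Finset.univ : Finset (Fin (k + 1 + 1))) :=
      Finset.card_image_iff.1 (by rw [he, hS]; simp)
    intro x y hxy
    exact this (by simp) (by simp) hxy
  refine ⟨e, hinj, ?_⟩
  rw [← he, per_eq_sum_perm c e hinj] at hSne
  exact hSne

end Pool.Agent.P.MP_50d982_co
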