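import Mathlib

/-! The signed number of ways to place translations with zero sum on an abelian group of prime
power order is not zero. -/

namespace Pool.Agent.P.MP_50d982_co

open Finset Equiv

variable {P G : Type*} [Fintype P] [DecidableEq P] [AddCommGroup G] [Fintype G] [DecidableEq G]

theorem card_graph (K : (P → G) → Prop) [DecidablePred K] (φ : (P → G) → G) (a : P)
    (hK : ∀ u y, K (Function.update u a y) ↔ K u) (hφ : ∀ u y, φ (Function.update u a y) = φ u) :
    #{u : P → G | K u ∧ u a = φ u} = #{u : P → G | K u ∧ u a = 0} := by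
  refine card_nbij' (fun u => Function.update u a 0) (fun u => Function.update u a (φ u))
    ?_ ?_ ?_ ?_
  · intro u hu
    simp only [coe_filter, mem_univ, true_and, Set.mem_ofPred_eq] at hu ⊢
    exact ⟨(hK _ _).2 hu.1, by simp⟩
  · intro u hu
    simp only [coe_filter, mem_univ, true_and, Set.mem_ofPred_eq] at hu ⊢
    exact ⟨(hK _ _).2 hu.1, by simp [hφ]⟩
  · intro u hu
    simp only [coe_filter, mem_univ, true_and, Set.mem_ofPred_eq] at hu
    simp [hφ, ← hu.2]
  · intro u hu
    simp only [coe_filter, mem_univ, true_and, Set.mem_ofPred_eq] at hu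
    simp [← hu.2]

theorem card_free (K : (P → G) → Prop) [DecidablePred K] (a : P)
    (hK : ∀ u y, K (Function.update u a y) ↔ K u) :
    #{u : P → G | K u} = Fintype.card G * #{u : P → G | K u ∧ u a = 0} := by
  rw [card_eq_sum_card_fiberwise (f := fun u : P → G => u a) (t := univ) (by simp)]
  rw [sum_congr rfl (g := fun _ => #{u : P → G | K u ∧ u a = 0}) fun y _ => by
    rw [filter_filter]
    exact card_graph K (fun _ => y) a hK fun _ _ => rfl]
  simp

/-- Number of solutions supported on `S`. -/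
def cnt (S : Finset P) (c : P → G) (τ : Perm P) : ℕ :=
  #{u : P → G | (∀ a ∉ S, u a = 0) ∧ ∀ a ∈ S, u (τ a) = u a + c a}

/-- The signed count. -/
def sF (S : Finset P) (c : P → G) : ℤ :=
  ∑ τ : Perm P with ∀ a ∉ S, τ a = a, (Perm.sign τ : ℤ) * cnt S c τ

theorem sF_congr (S : Finset P) {c c' : P → G} (h : ∀ a ∈ S, c a = c' a) : sF S c = sF S c' := by
  unfold sF cnt
  refine sum_congr rfl fun τ _ => ?_
  congr 3
  ext u
  simp only [mem_filter, mem_univ, true_and]
  exact and_congr_right fun _ => forall₂_congr fun a ha => by rw [h a ha]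

theorem sF_empty (c : P → G) : sF (∅ : Finset P) c = 1 := by
  have e1 : (univ.filter fun τ : Perm P => ∀ a ∉ (∅ : Finset P), τ a = a) = {1} := by
    ext τ
    simp [Equiv.ext_iff]
  have e2 : cnt (∅ : Finset P) c 1 = 1 := by
    unfold cnt
    rw [card_eq_one]
    exact ⟨0, by ext u; simp [funext_iff]⟩
  rw [sF, e1, sum_singleton, e2]
  simp

theorem cnt_fix {S : Finset P} {a₀ : P} (h₀ : a₀ ∉ S) (c : P → G) {τ : Perm P}
    (hτ : ∀ a ∉ S, τ a = a) :
    cnt (insert a₀ S) c τ = if c a₀ = 0 then Fintype.card G * cnt S c τ else 0 := by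
  have hne : ∀ a ∈ S, a ≠ a₀ ∧ τ a ≠ a₀ := fun a ha =>
    ⟨fun e => h₀ (e ▸ ha), fun e => h₀ (τ.injective (e.trans (hτ a₀ h₀).symm) ▸ ha)⟩
  unfold cnt
  split_ifs with hc
  · rw [card_free _ a₀]
    · congr 2
      ext u
      simp only [mem_filter, mem_univ, mem_insert, not_or, forall_eq_or_imp, hτ a₀ h₀, hc,
        add_zero, true_and]
      constructor
      · rintro ⟨⟨h1, h2⟩, h3⟩
        exact ⟨fun a ha => if e : a = a₀ then e ▸ h3 else h1 a ⟨e, ha⟩, h2⟩
      · rintro ⟨h1, h2⟩
        exact ⟨⟨fun a ha => h1 a ha.2, h2⟩, h1 a₀ h₀⟩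
    · intro u y
      simp only [mem_insert, not_or, forall_eq_or_imp, hτ a₀ h₀, hc, add_zero, true_and]
      refine and_congr (forall₂_congr fun a ha => ?_) (forall₂_congr fun a ha => ?_)
      · rw [Function.update_of_ne ha.1]
      · rw [Function.update_of_ne (hne a ha).1, Function.update_of_ne (hne a ha).2]
  · rw [card_eq_zero, filter_eq_empty_iff]
    rintro u - ⟨-, h⟩
    have := h a₀ (mem_insert_self _ _)
    rw [hτ a₀ h₀] at this
    exact hc (by simpa using this)

theorem cnt_swap {S : Finset P} {a₀ a : P} (h₀ : a₀ ∉ S) (ha : a ∈ S) (c : P → G) {τ : Perm P}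
    (hτ : ∀ b ∉ S, τ b = b) :
    cnt (insert a₀ S) c (τ * swap a a₀) = cnt S (Function.update c a (c a + c a₀)) τ := by
  have hne : ∀ b ∈ S, b ≠ a₀ ∧ τ b ≠ a₀ := fun b hb =>
    ⟨fun e => h₀ (e ▸ hb), fun e => h₀ (τ.injective (e.trans (hτ a₀ h₀).symm) ▸ hb)⟩
  have key := card_graph (fun u : P → G => (∀ b ∉ insert a₀ S, u b = 0) ∧
      ∀ b ∈ S, u (τ b) = u b + Function.update c a (c a + c a₀) b) (fun u => u a + c a) a₀
    (fun u y => and_congr
      (forall₂_congr fun b hb => by
        rw [Function.update_of_ne fun e => hb (by rw [e]; exact mem_insert_self _ _)])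
      (forall₂_congr fun b hb => by
        rw [Function.update_of_ne (hne b hb).1, Function.update_of_ne (hne b hb).2]))
    (fun u y => by rw [Function.update_of_ne (hne a ha).1])
  unfold cnt
  refine Eq.trans (congrArg card ?_) (key.trans (congrArg card ?_))
  · ext u
    simp only [mem_filter, mem_univ, true_and, and_assoc]
    refine and_congr_right fun _ => ?_
    rw [forall_mem_insert, Perm.mul_apply, swap_apply_right]
    constructor
    · rintro ⟨h1, h2⟩
      have h3 := h2 a ha
      rw [Perm.mul_apply, swap_apply_left, hτ a₀ h₀] at h3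
      refine ⟨fun b hb => ?_, h3⟩
      by_cases e : b = a
      · rw [e, Function.update_self, h1, h3, add_assoc]
      · have h4 := h2 b hb
        rw [Perm.mul_apply, swap_apply_of_ne_of_ne e (hne b hb).1] at h4
        rw [Function.update_of_ne e, h4]
    · rintro ⟨h1, h2⟩
      have h3 := h1 a ha
      rw [Function.update_self] at h3
      refine ⟨by rw [h3, h2, add_assoc], fun b hb => ?_⟩
      by_cases e : b = a
      · rw [e, Perm.mul_apply, swap_apply_left, hτ a₀ h₀, h2]
      · have h4 := h1 b hb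
        rw [Function.update_of_ne e] at h4
        rw [Perm.mul_apply, swap_apply_of_ne_of_ne e (hne b hb).1, h4]
  · ext u
    simp only [mem_filter, mem_univ, true_and, mem_insert, not_or]
    constructor
    · rintro ⟨⟨h1, h2⟩, h3⟩
      exact ⟨fun b hb => if e : b = a₀ then e ▸ h3 else h1 b ⟨e, hb⟩, h2⟩
    · rintro ⟨h1, h2⟩
      exact ⟨⟨fun b hb => h1 b hb.2, h2⟩, h1 a₀ h₀⟩

theorem sF_insert {S : Finset P} {a₀ : P} (h₀ : a₀ ∉ S) (c : P → G) :
    sF (insert a₀ S) c = (if c a₀ = 0 then (Fintype.card G : ℤ) * sF S c else 0) -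
      ∑ a ∈ S, sF S (Function.update c a (c a + c a₀)) := by
  have step : sF (insert a₀ S) c = ∑ a ∈ insert a₀ S, ∑ τ : Perm P with ∀ b ∉ S, τ b = b,
      (Perm.sign (τ * swap a a₀) : ℤ) * cnt (insert a₀ S) c (τ * swap a a₀) := by
    unfold sF
    rw [← sum_fiberwise_of_maps_to (t := insert a₀ S) (g := fun τ : Perm P => τ.symm a₀)]
    · refine sum_congr rfl fun a ha => ?_
      refine sum_nbij' (fun τ => τ * swap a a₀) (fun τ => τ * swap a a₀) ?_ ?_ ?_ ?_ ?_
      · intro τ hτ
        simp only [mem_filter, mem_univ, true_and] at hτ ⊢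
        intro b hb
        by_cases e : b = a₀
        · rw [e, Perm.mul_apply, swap_apply_right, ← hτ.2, apply_symm_apply]
        · have hb' : b ∉ insert a₀ S := by simp [e, hb]
          rw [Perm.mul_apply, swap_apply_of_ne_of_ne (fun k : b = a => hb' (k ▸ ha)) e,
            hτ.1 b hb']
      · intro τ hτ
        simp only [mem_filter, mem_univ, true_and] at hτ ⊢
        refine ⟨fun b hb => ?_, ?_⟩
        · rw [Perm.mul_apply, swap_apply_of_ne_of_ne (fun k : b = a => hb (k ▸ ha))
            (fun k : b = a₀ => hb (k ▸ mem_insert_self _ _)), hτ b fun k => hb (mem_insert_of_mem k)]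
        · rw [symm_apply_eq, Perm.mul_apply, swap_apply_left, hτ a₀ h₀]
      · intro τ _
        simp
      · intro τ _
        simp
      · intro τ _
        simp
    · intro τ hτ
      by_contra hn
      have := (mem_filter.1 hτ).2 _ hn
      rw [apply_symm_apply] at this
      exact hn (this ▸ mem_insert_self _ _)
  rw [step, sum_insert h₀, sub_eq_add_neg, ← sum_neg_distrib]
  congr 1
  · rw [swap_self]
    simp only [show (Equiv.refl P : Perm P) = 1 from rfl, mul_one]
    rw [sum_congr rfl fun τ hτ => by rw [cnt_fix h₀ c (mem_filter.1 hτ).2]]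
    split_ifs
    · rw [sF, mul_sum]
      exact sum_congr rfl fun τ _ => by push_cast; ring
    · simp
  · refine sum_congr rfl fun a ha => ?_
    rw [sF, ← sum_neg_distrib]
    refine sum_congr rfl fun τ hτ => ?_
    rw [cnt_swap h₀ ha c (mem_filter.1 hτ).2, Perm.sign_mul,
      Perm.sign_swap fun e => h₀ (by rw [← e]; exact ha)]
    simp

omit [Fintype P] in
theorem sum_erase_powerset (S : Finset P) (ψ : Finset P → ℤ) :
    ∑ a ∈ S, ∑ B ∈ (S.erase a).powerset, ψ (insert a B) = ∑ B ∈ S.powerset, #B * ψ B := by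
  have e : ∀ B ∈ S.powerset, (#B : ℤ) * ψ B = ∑ _a ∈ B, ψ B := fun B _ => by simp
  rw [sum_congr rfl e, sum_sigma', sum_sigma']
  refine sum_nbij' (fun x => ⟨insert x.1 x.2, x.1⟩) (fun x => ⟨x.2, x.1.erase x.2⟩) ?_ ?_ ?_ ?_ ?_
  · rintro ⟨a, B⟩ h
    simp only [mem_sigma, mem_powerset] at h ⊢
    exact ⟨insert_subset h.1 (h.2.trans (erase_subset _ _)), mem_insert_self _ _⟩
  · rintro ⟨B, a⟩ h
    simp only [mem_sigma, mem_powerset] at h ⊢
    exact ⟨h.1 h.2, erase_subset_erase _ h.1⟩
  · rintro ⟨a, B⟩ h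
    simp only [mem_sigma, mem_powerset] at h
    have : a ∉ B := fun k => notMem_erase a S (h.2 k)
    simp [erase_insert this]
  · rintro ⟨B, a⟩ h
    simp only [mem_sigma, mem_powerset] at h
    simp [insert_erase h.2]
  · rintro ⟨a, B⟩ _
    rfl

theorem sF_block : ∀ (n : ℕ) (S : Finset P) (a₀ : P) (c : P → G), #S = n → a₀ ∉ S →
    sF (insert a₀ S) c = ∑ B ∈ S.powerset, (-1) ^ #B * (#B).factorial *
      (if c a₀ + ∑ b ∈ B, c b = 0 then (Fintype.card G : ℤ) * sF (S \ B) c else 0) := by
  intro n
  induction n with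
  | zero =>
    intro S a₀ c hS h₀
    rw [sF_insert h₀, card_eq_zero.1 hS]
    simp
  | succ n ih =>
    intro S a₀ c hS h₀
    let ψ : Finset P → ℤ := fun B => (-1) ^ (#B - 1) * (#B - 1).factorial *
      (if c a₀ + ∑ b ∈ B, c b = 0 then (Fintype.card G : ℤ) * sF (S \ B) c else 0)
    have h1 : ∀ a ∈ S, sF S (Function.update c a (c a + c a₀)) =
        ∑ B ∈ (S.erase a).powerset, ψ (insert a B) := by
      intro a ha
      conv_lhs => rw [← insert_erase ha]
      rw [ih (S.erase a) a _ (by rw [card_erase_of_mem ha]; omega) (notMem_erase _ _)]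
      refine sum_congr rfl fun B hB => ?_
      have hB' := mem_powerset.1 hB
      have haB : a ∉ B := fun k => notMem_erase a S (hB' k)
      have e1 : ∑ b ∈ B, Function.update c a (c a + c a₀) b = ∑ b ∈ B, c b :=
        sum_congr rfl fun b hb => Function.update_of_ne (fun e => haB (by rw [← e]; exact hb)) _ _
      have e2 : S \ insert a B = S.erase a \ B := by
        ext x
        simp only [mem_sdiff, mem_insert, mem_erase]
        tauto
      have e3 : sF (S.erase a \ B) (Function.update c a (c a + c a₀)) = sF (S.erase a \ B) c :=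
        sF_congr _ fun b hb => Function.update_of_ne (mem_erase.1 (mem_sdiff.1 hb).1).1 _ _
      simp only [ψ, card_insert_of_notMem haB, Nat.add_sub_cancel, sum_insert haB,
        Function.update_self, e1, e2, e3]
      rw [show c a + c a₀ + ∑ b ∈ B, c b = c a₀ + (c a + ∑ b ∈ B, c b) by abel]
    rw [sF_insert h₀, sum_congr rfl h1, sum_erase_powerset,
      ← add_sum_erase _ _ (empty_mem_powerset S), ← add_sum_erase _ _ (empty_mem_powerset S)]
    simp only [card_empty, Nat.cast_zero, zero_mul, zero_add, pow_zero, Nat.factorial_zero,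
      Nat.cast_one, one_mul, sum_empty, add_zero, sdiff_empty]
    rw [sub_eq_add_neg, ← sum_neg_distrib]
    congr 1
    refine sum_congr rfl fun B hB => ?_
    obtain ⟨k, hk⟩ : ∃ k, #B = k + 1 :=
      Nat.exists_eq_succ_of_ne_zero (mt card_eq_zero.1 (mem_erase.1 hB).1)
    simp only [ψ, hk, Nat.add_sub_cancel, Nat.factorial_succ]
    push_cast
    ring

theorem val_factorial {p r a b : ℕ} [hp : Fact p.Prime] (h : a + b + 1 < p ^ r) :
    padicValNat p (a + b + 1).factorial < padicValNat p a.factorial + padicValNat p b.factorial + r := by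
  have hr : r ≠ 0 := by
    rintro rfl
    simp at h
  have hl : ∀ n, n < p ^ r → Nat.log p n < r := fun n hn => Nat.log_lt_of_lt_pow' hr hn
  rw [padicValNat_factorial (hl _ h), padicValNat_factorial (hl a (by omega)),
    padicValNat_factorial (hl b (by omega)), ← sum_add_distrib]
  have : ∑ i ∈ Ico 1 r, (a + b + 1) / p ^ i ≤ ∑ i ∈ Ico 1 r, (a / p ^ i + b / p ^ i + 1) := by
    refine sum_le_sum fun i _ => ?_
    have hm : 0 < p ^ i := pow_pos hp.out.pos i
    generalize p ^ i = m at hm
    rw [← Nat.lt_succ_iff, Nat.div_lt_iff_lt_mul hm]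
    have h1 := Nat.div_add_mod a m
    have h2 := Nat.div_add_mod b m
    have h3 := Nat.mod_lt a hm
    have h4 := Nat.mod_lt b hm
    nlinarith
  rw [sum_add_distrib, sum_const, Nat.card_Ico, smul_eq_mul, mul_one] at this
  omega

theorem sF_mod {p r : ℕ} [hp : Fact p.Prime] (hq : Fintype.card G = p ^ r) :
    ∀ (n : ℕ) (S : Finset P) (a₀ : P) (c : P → G), #S = n → n < p ^ r → a₀ ∉ S →
    (p : ℤ) ^ (padicValNat p n.factorial + r + 1) ∣ sF (insert a₀ S) c - (-1) ^ n * n.factorial *
      (if c a₀ + ∑ b ∈ S, c b = 0 then (p : ℤ) ^ r else 0) := by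
  intro n
  induction n using Nat.strong_induction_on with
  | _ n ih =>
  intro S a₀ c hS hn h₀
  rw [sF_block n S a₀ c hS h₀, ← add_sum_erase _ _ (mem_powerset_self S), sdiff_self, bot_eq_empty,
    sF_empty, mul_one, hq, hS]
  push_cast
  rw [add_sub_cancel_left]
  refine dvd_sum fun B hB => ?_
  have hB1 := (mem_erase.1 hB).1
  have hB2 := mem_powerset.1 (mem_erase.1 hB).2
  split_ifs
  swap
  · simp
  obtain ⟨a, ha⟩ : (S \ B).Nonempty :=
    sdiff_nonempty.2 fun k => hB1 (Subset.antisymm hB2 k)
  have hc : #B + #((S \ B).erase a) + 1 = n := by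
    have := card_sdiff_add_card_eq_card hB2
    have := card_erase_add_one ha
    omega
  have h1 := ih _ (by omega) ((S \ B).erase a) a c rfl (by omega) (notMem_erase _ _)
  rw [insert_erase ha] at h1
  have hf : ∀ k : ℕ, (p : ℤ) ^ padicValNat p k.factorial ∣ (k.factorial : ℤ) := fun k => by
    exact_mod_cast pow_padicValNat_dvd
  have h2 : (p : ℤ) ^ (padicValNat p (#((S \ B).erase a)).factorial + r) ∣ sF (S \ B) c := by
    have h3 := (pow_dvd_pow _ (Nat.le_succ _)).trans h1
    refine (dvd_sub_left ?_).1 h3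
    rw [pow_add, mul_assoc]
    refine Dvd.dvd.mul_left (mul_dvd_mul (hf _) ?_) _
    split_ifs <;> simp
  have h4 := val_factorial (p := p) (r := r) (a := #B) (b := #((S \ B).erase a)) (by omega)
  rw [hc] at h4
  rw [mul_assoc]
  refine Dvd.dvd.mul_left ((pow_dvd_pow _ ?_).trans
    (by rw [pow_add, pow_add]; exact mul_dvd_mul (hf #B) (mul_dvd_mul dvd_rfl h2) :
      (p : ℤ) ^ (padicValNat p (#B).factorial +
        (r + (padicValNat p (#((S \ B).erase a)).factorial + r))) ∣ _)) _
  omega

theorem sF_ne_zero {p r : ℕ} [hp : Fact p.Prime] (hq : Fintype.card G = p ^ r) (c : G → G)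
    (hc : ∑ b, c b = 0) : sF (univ : Finset G) c ≠ 0 := by
  intro h
  have hn : #(univ.erase (0 : G)) < p ^ r := by
    rw [← hq, ← card_univ]
    exact card_erase_lt_of_mem (mem_univ _)
  have h1 := sF_mod hq _ (univ.erase (0 : G)) 0 c rfl hn (notMem_erase _ _)
  rw [insert_erase (mem_univ _), h, add_sum_erase _ _ (mem_univ _), if_pos hc, zero_sub, dvd_neg,
    mul_assoc, (isUnit_neg_one.pow _).dvd_mul_left, add_right_comm, pow_add,
    mul_dvd_mul_iff_right (pow_ne_zero _ (by exact_mod_cast hp.out.ne_zero))] at h1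
  exact pow_succ_padicValNat_not_dvd (Nat.factorial_ne_zero _) (by exact_mod_cast h1)

/-- The signed number of placements of translations with zero sum does not vanish. -/
theorem shift_ne_zero {p r : ℕ} [hp : Fact p.Prime] (hq : Fintype.card G = p ^ r) (c : G → G)
    (hc : ∑ b, c b = 0) :
    ∑ σ : Perm G, (Matrix.of fun s t : G => if t + c (σ t) = s then (1 : ℤ) else 0).det ≠ 0 := by
  have h := sF_ne_zero hq c hc
  let M : (G → G) → Matrix G G ℤ := fun u => Matrix.of fun b a => if u b = u a + c a then 1 else 0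
  have e1 : sF (univ : Finset G) c = ∑ u : G → G, (M u).det := by
    simp only [sF, cnt, mem_univ, not_true_eq_false, false_imp_iff, implies_true, filter_true,
      true_and, forall_true_left, Matrix.det_apply', M, Matrix.of_apply, card_filter,
      prod_ite_zero, prod_const_one]
    rw [sum_comm]
    refine sum_congr rfl fun τ _ => ?_
    push_cast
    rw [mul_sum]
  have e2 : ∑ u : G → G, (M u).det = ∑ σ : Perm G, (M σ.symm).det := by
    rw [← sum_filter_add_sum_filter_not univ fun u : G → G => Function.Bijective u,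
      sum_eq_zero (s := univ.filter fun u : G → G => ¬ Function.Bijective u), add_zero]
    · refine (sum_bij (fun (σ : Perm G) _ => (σ.symm : G → G)) ?_ ?_ ?_ ?_).symm
      · intro σ _
        exact mem_filter.2 ⟨mem_univ _, σ.symm.bijective⟩
      · intro σ _ σ' _ e
        exact symm_bijective.injective (DFunLike.coe_injective e)
      · intro u hu
        exact ⟨(Equiv.ofBijective u (mem_filter.1 hu).2).symm, mem_univ _, rfl⟩
      · intro σ _
        rfl
    · intro u hu
      have hn := (mem_filter.1 hu).2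
      rw [← Finite.injective_iff_bijective, Function.not_injective_iff] at hn
      obtain ⟨a, b, e, hab⟩ := hn
      exact Matrix.det_zero_of_row_eq hab (funext fun t => by simp [M, e])
  rw [e1, e2] at h
  refine fun k => h (Eq.trans (sum_congr rfl fun σ _ => ?_) k)
  rw [← Matrix.det_submatrix_equiv_self σ]
  congr 1
  ext s t
  simp [M, eq_comm]

end Pool.Agent.P.MP_50d982_co
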