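import Pool.Agent.P.MP_50d982_co.Defs
import Pool.Agent.P.MP_50d982_co.Perm
import Pool.Agent.P.MP_50d982_co.Shift

/-! Arrays with `2q-1` rows and `q` columns: a nonzero signed count of near transversals in `q-1`
rows forces a transversal. -/

namespace Pool.Agent.P.MP_50d982_co

open Finset Equiv

section Arr

variable {Q L : Type*} [Fintype Q] [DecidableEq Q] [Fintype L] [DecidableEq L]

/-- The matrix of the symbols chosen by an assignment of rows to columns. -/
def aM (r : L → Q → Q) (i : Q → L) : Matrix Q Q ℚ :=
  Matrix.of fun s t => if r (i t) t = s then 1 else 0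

/-- The signed count of near transversals in the rows `J`. -/
def aG (r : L → Q → Q) (a : L) (J : Finset L) : ℚ :=
  ∑ t : Q, ∑ i : Q → L with i t = a ∧ (univ.erase t).image i = J,
    ((aM r i).updateCol t 1).det

theorem aG_indep (r : L → Q → Q) (a a' : L) (J : Finset L) : aG r a J = aG r a' J := by
  have him : ∀ (i : Q → L) (t : Q) (b : L),
      (univ.erase t).image (Function.update i t b) = (univ.erase t).image i := fun i t b =>
    image_congr fun s hs => Function.update_of_ne (mem_erase.1 hs).1 _ _
  refine sum_congr rfl fun t _ => ?_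
  refine sum_nbij' (fun i => Function.update i t a') (fun i => Function.update i t a)
    ?_ ?_ ?_ ?_ ?_
  · intro i hi
    simp only [mem_filter, mem_univ, true_and] at hi ⊢
    exact ⟨by simp, (him i t a').trans hi.2⟩
  · intro i hi
    simp only [mem_filter, mem_univ, true_and] at hi ⊢
    exact ⟨by simp, (him i t a).trans hi.2⟩
  · intro i hi
    simp [← (mem_filter.1 hi).2.1]
  · intro i hi
    simp [← (mem_filter.1 hi).2.1]
  · intro i _
    congr 1
    ext s t'
    by_cases e : t' = t
    · simp [e]
    · simp [Matrix.updateCol_ne e, aM, Function.update_of_ne e]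

omit [Fintype L] [DecidableEq L] in
theorem sum_updateCol (r : L → Q → Q) (i : Q → L) (h : ¬ Function.Bijective fun t => r (i t) t) :
    ∑ t, ((aM r i).updateCol t 1).det = 0 := by
  have h0 : (aM r i).det = 0 := by
    rw [← Finite.injective_iff_bijective, Function.not_injective_iff] at h
    obtain ⟨a, b, e, hab⟩ := h
    exact Matrix.det_zero_of_column_eq hab fun s => by simp [aM, e]
  have h1 := Matrix.mulVec_cramer (aM r i) 1
  rw [h0, zero_smul] at h1
  have h2 : ∑ s, Matrix.mulVec (aM r i) (Matrix.cramer (aM r i) 1) s = 0 := by simp [h1]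
  simp only [Matrix.mulVec, dotProduct] at h2
  rw [sum_comm] at h2
  simp only [← sum_mul] at h2
  simpa [aM, Matrix.cramer_apply] using h2

theorem aG_sum (r : L → Q → Q)
    (h : ∀ i : Q → L, Function.Injective i → ¬ Function.Bijective fun t => r (i t) t)
    {I : Finset L} (hI : #I = Fintype.card Q) : ∑ a ∈ I, aG r a (I.erase a) = 0 := by
  have hinj : ∀ i : Q → L, univ.image i = I → Function.Injective i := fun i hi =>
    Set.injOn_univ.1 (by
      have := injOn_of_card_image_eq (s := univ) (f := i) (by rw [hi, hI, card_univ])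
      simpa using this)
  have e : ∀ t : Q, ∑ a ∈ I, ∑ i : Q → L with i t = a ∧ (univ.erase t).image i = I.erase a,
      ((aM r i).updateCol t 1).det =
      ∑ i : Q → L with univ.image i = I, ((aM r i).updateCol t 1).det := by
    intro t
    rw [← sum_fiberwise_of_maps_to (s := univ.filter fun i : Q → L => univ.image i = I) (t := I)
      (g := fun i => i t) fun i hi => by
        rw [← (mem_filter.1 hi).2]
        exact mem_image_of_mem _ (mem_univ _)]
    refine sum_congr rfl fun a ha => sum_congr ?_ fun _ _ => rfl
    ext i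
    simp only [mem_filter, mem_univ, true_and]
    constructor
    · rintro ⟨h1, h2⟩
      refine ⟨?_, h1⟩
      rw [← insert_erase (mem_univ t), image_insert, h1, h2, insert_erase ha]
    · rintro ⟨h1, h2⟩
      exact ⟨h2, by rw [image_erase (hinj i h1), h1, h2]⟩
  unfold aG
  rw [sum_comm, sum_congr rfl fun t _ => e t, sum_comm]
  exact sum_eq_zero fun i hi => sum_updateCol r i (h i (hinj i (mem_filter.1 hi).2))

theorem array_transversal (r : L → Q → Q) (hL : 2 * Fintype.card Q ≤ Fintype.card L + 1)
    {a : L} {J : Finset L} (hJ : #J + 1 = Fintype.card Q) (hg : aG r a J ≠ 0) :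
    ∃ i : Q → L, Function.Injective i ∧ Function.Bijective fun t => r (i t) t := by
  by_contra hn
  push Not at hn
  obtain ⟨g, h1, h2⟩ := up_kernel (K := ℚ) #J univ (aG r a) (by rw [card_univ]; omega)
    (fun l hl _ => by exact_mod_cast (by omega : l ≠ 0)) fun S _ hS => by
      rw [← aG_sum r hn (hS.trans hJ)]
      exact sum_congr rfl fun b _ => aG_indep r a b _
  rw [h2 J (subset_univ _) rfl] at hg
  exact hg ((mul_eq_zero.1 h1).resolve_left (Nat.cast_ne_zero.2 (Nat.succ_ne_zero _)))

end Arr

variable {G L : Type*} [AddCommGroup G] [Fintype G] [DecidableEq G] [Fintype L] [DecidableEq L]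

theorem aG_shift {p n : ℕ} [Fact p.Prime] (hq : Fintype.card G = p ^ n) (r : L → G → G)
    (j : G → L) (hj : Function.Injective j) (b : G) (c : G → G) (hc : ∑ s, c s = 0)
    (hr : ∀ s, s ≠ b → ∀ t, r (j s) t = t + c s) :
    aG r (j b) ((univ.erase b).image j) ≠ 0 := by
  have h := shift_ne_zero hq c hc
  have h' : ∑ σ : Perm G,
      (Matrix.of fun s t : G => if t + c (σ t) = s then (1 : ℚ) else 0).det ≠ 0 := by
    intro k
    apply h
    have : ((∑ σ : Perm G, (Matrix.of fun s t : G =>
        if t + c (σ t) = s then (1 : ℤ) else 0).det : ℤ) : ℚ) = 0 := by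
      rw [← k]
      push_cast
      refine sum_congr rfl fun σ _ => ?_
      congr 1
      ext s t
      simp
    exact_mod_cast this
  refine fun k => h' (Eq.trans ?_ k)
  unfold aG
  rw [sum_sigma']
  refine sum_bij (fun σ _ => ⟨σ.symm b, fun t => j (σ t)⟩) ?_ ?_ ?_ ?_
  · intro σ _
    simp only [mem_sigma, mem_univ, mem_filter, true_and, apply_symm_apply]
    rw [show (fun t => j (σ t)) = j ∘ σ from rfl, ← image_image, image_erase σ.injective,
      image_univ_equiv, apply_symm_apply]
  · intro σ _ σ' _ e
    have := (Sigma.mk.inj_iff.1 e).2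
    exact Equiv.ext fun t => hj (congrFun (eq_of_heq this) t)
  · rintro ⟨t, i⟩ hx
    simp only [mem_sigma, mem_univ, mem_filter, true_and] at hx
    have h1 : univ.image i = univ.image j := by
      rw [← insert_erase (mem_univ t), image_insert, hx.1, hx.2, ← image_insert,
        insert_erase (mem_univ _), insert_erase (mem_univ _)]
    have h2 : ∀ s, ∃ u, j u = i s := fun s => by
      have : i s ∈ univ.image j := h1 ▸ mem_image_of_mem _ (mem_univ _)
      simpa using this
    choose σ hσ using h2
    have h3 : Function.Surjective σ := fun u => by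
      have : j u ∈ univ.image i := h1 ▸ mem_image_of_mem _ (mem_univ _)
      obtain ⟨s, -, hs⟩ := mem_image.1 this
      exact ⟨s, hj ((hσ s).trans hs)⟩
    refine ⟨Equiv.ofBijective σ (Finite.surjective_iff_bijective.1 h3), mem_univ _, ?_⟩
    have h4 : (Equiv.ofBijective σ (Finite.surjective_iff_bijective.1 h3)).symm b = t := by
      rw [symm_apply_eq]
      exact hj (hx.1.symm.trans (hσ t).symm)
    rw [h4]
    congr 1
    exact funext hσ
  · intro σ _
    rw [Matrix.det_apply', Matrix.det_apply']
    refine sum_congr rfl fun ρ _ => ?_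
    congr 1
    rw [← mul_prod_erase _ _ (mem_univ (σ.symm b)), ← mul_prod_erase _ _ (mem_univ (σ.symm b))]
    have e : ∀ t ∈ univ.erase (σ.symm b),
        ((aM r fun t => j (σ t)).updateCol (σ.symm b) 1) (ρ t) t =
          if t + c (σ t) = ρ t then 1 else 0 := fun t ht => by
      have ht' := (mem_erase.1 ht).1
      rw [Matrix.updateCol_ne ht', aM, Matrix.of_apply,
        hr _ fun k => ht' (by rw [← k, symm_apply_apply])]
    rw [prod_congr rfl e]
    simp only [Matrix.of_apply, Matrix.updateCol_self, Pi.one_apply, prod_ite_zero,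
      prod_const_one, one_mul]
    split_ifs with h1 h2 h2
    · simp
    · simp
    · exfalso
      apply h1
      have h3 : ∑ t, (t + c (σ t)) = ∑ t, ρ t := by
        rw [sum_add_distrib, Equiv.sum_comp σ c, hc, add_zero, Equiv.sum_comp ρ fun t => t]
      rw [← add_sum_erase _ _ (mem_univ (σ.symm b)), ← add_sum_erase _ _ (mem_univ (σ.symm b)),
        sum_congr rfl h2] at h3
      exact add_right_cancel h3
    · simp

theorem half_translates {p n m k : ℕ} (hp : p.Prime) (hq : Fintype.card G = p ^ n)
    (hk : 2 * Fintype.card G ≤ k + 1) (C : Fin k → (Fin m → G) → G)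
    (x : G → Fin m → G) (hx : ∀ l, Function.Bijective fun t => x t l) (g : G → G)
    (hg : Function.Bijective g) (J : Finset (Fin k))
    (hJ : #J + 1 = Fintype.card G) (hC : ∀ i ∈ J, ∃ c, ∀ t, C i (x t) = g t + c) :
    HasTransversal C := by
  have : Fact p.Prime := ⟨hp⟩
  choose! c hc using hC
  obtain ⟨a, ha⟩ : ∃ a, a ∉ J := by
    by_contra hn
    push Not at hn
    rw [eq_univ_iff_forall.2 hn, card_univ, Fintype.card_fin] at hJ
    have := Fintype.card_pos (α := G)
    omega
  let β := Equiv.ofBijective _ hg
  let e : G ≃ (insert a J : Finset (Fin k)) :=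
    Fintype.equivOfCardEq (by rw [Fintype.card_coe, card_insert_of_notMem ha, hJ])
  let j : G → Fin k := fun s => e s
  have hj : Function.Injective j := Subtype.val_injective.comp e.injective
  let b : G := e.symm ⟨a, mem_insert_self _ _⟩
  have hb : j b = a := by simp [j, b]
  have hmem : ∀ s, s ≠ b → j s ∈ J := fun s hs =>
    (mem_insert.1 (e s).2).resolve_left fun k => hs (hj (k.trans hb.symm))
  have him : (univ.erase b).image j = J := by
    refine eq_of_subset_of_card_le (fun i hi => ?_) ?_
    · obtain ⟨s, hs, rfl⟩ := mem_image.1 hi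
      exact hmem s (mem_erase.1 hs).1
    · rw [card_image_of_injective _ hj, card_erase_of_mem (mem_univ _), card_univ]
      omega
  have key := aG_shift hq (fun i t => C i (x (β.symm t))) j hj b
    (Function.update (fun s => c (j s)) b (-∑ s ∈ univ.erase b, c (j s))) (by
      rw [← add_sum_erase _ _ (mem_univ b), Function.update_self,
        sum_congr rfl fun s hs => Function.update_of_ne (mem_erase.1 hs).1 _ _, neg_add_cancel])
    fun s hs t => by
      rw [Function.update_of_ne hs, hc _ (hmem s hs)]
      congr 1
      exact β.apply_symm_apply t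
  obtain ⟨i, h1, h2⟩ := array_transversal _ (by rwa [Fintype.card_fin]) (by rw [him, hJ]) key
  exact ⟨i, fun t => x (β.symm t), h1, fun l => (hx l).comp β.symm.bijective, h2⟩

end Pool.Agent.P.MP_50d982_co
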