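import Mathlib

/-! Signed count of rainbow matchings of `q` lines over a field with `q` elements. -/

namespace Pool.Agent.P.MP_50d982_co

open Finset Equiv

variable {K : Type*} [Field K] [Fintype K]

theorem sum_pow_top : ∑ y : K, y ^ (Fintype.card K - 1) = -1 := by
  classical
  have h2 : 1 < Fintype.card K := Fintype.one_lt_card
  have h : ∀ y : K, y ^ (Fintype.card K - 1) = 1 - (if y = 0 then 1 else 0) := by
    intro y
    by_cases hy : y = 0
    · subst hy
      rw [zero_pow (by omega)]; simp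
    · rw [FiniteField.pow_card_sub_one_eq_one y hy]; simp [hy]
  simp_rw [h]
  rw [Finset.sum_sub_distrib]
  simp

theorem sum_line (a d : K) (i j : ℕ) (h : i + j ≤ Fintype.card K - 1) :
    ∑ y : K, y ^ i * (a * y + d) ^ j = a ^ j * ∑ y : K, y ^ (i + j) := by
  have h1 : ∀ y : K, y ^ i * (a * y + d) ^ j
      = ∑ l ∈ range (j + 1), (a ^ l * d ^ (j - l) * (j.choose l : K)) * y ^ (i + l) := by
    intro y
    rw [add_pow, Finset.mul_sum]
    refine Finset.sum_congr rfl fun l _ => ?_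
    rw [mul_pow, pow_add]; ring
  simp_rw [h1]
  rw [Finset.sum_comm, Finset.sum_range_succ]
  have h2 : ∑ l ∈ range j, ∑ y : K, (a ^ l * d ^ (j - l) * (j.choose l : K)) * y ^ (i + l) = 0 := by
    refine Finset.sum_eq_zero fun l hl => ?_
    rw [← Finset.mul_sum, FiniteField.sum_pow_lt_card_sub_one K (i + l)
      (by have := Finset.mem_range.1 hl; omega), mul_zero]
  rw [h2, zero_add, ← Finset.mul_sum]
  simp

theorem eq_rev_of_le {q : ℕ} (σ τ : Perm (Fin q))
    (h : ∀ t, q - 1 ≤ (σ t : ℕ) + (τ t : ℕ)) : σ = Fin.revPerm * τ := by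
  have h1 : ∑ t : Fin q, ((σ t : ℕ) + (τ t : ℕ)) = ∑ _t : Fin q, (q - 1) := by
    rw [Finset.sum_add_distrib]
    have e1 : ∑ t : Fin q, (σ t : ℕ) = ∑ t : Fin q, ((Fin.rev t : Fin q) : ℕ) := by
      rw [Equiv.sum_comp σ (fun t : Fin q => (t : ℕ))]
      exact (Equiv.sum_comp (Fin.revPerm (n := q)) (fun t : Fin q => (t : ℕ))).symm
    have e2 : ∑ t : Fin q, (τ t : ℕ) = ∑ t : Fin q, (t : ℕ) :=
      Equiv.sum_comp τ (fun t : Fin q => (t : ℕ))
    rw [e1, e2, ← Finset.sum_add_distrib]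
    refine Finset.sum_congr rfl fun t _ => ?_
    rw [Fin.val_rev]; have := t.2; omega
  have h2 := (Finset.sum_eq_sum_iff_of_le (s := Finset.univ)
    (f := fun _ : Fin q => q - 1) (g := fun t => (σ t : ℕ) + (τ t : ℕ))
    (fun t _ => h t)).1 h1.symm
  ext t
  have := h2 t (Finset.mem_univ _)
  simp only [Perm.coe_mul, Function.comp_apply, Fin.revPerm_apply, Fin.val_rev]
  have := (τ t).2
  omega

/-- If the permanent of the matrix `a t ^ j` is nonzero, the `q` lines `z = a t * y + d t` have a rainbow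
matching, whatever the constants `d t`. -/
theorem exists_rainbow {q : ℕ} (hq : Fintype.card K = q) (a d : Fin q → K)
    (hper : ∑ τ : Perm (Fin q), ∏ t, a t ^ (τ t : ℕ) ≠ 0) :
    ∃ y : Fin q → K, Function.Injective y ∧ Function.Injective fun t => a t * y t + d t := by
  classical
  by_contra hcon
  have hz : ∑ y : Fin q → K, (Matrix.vandermonde y).det *
      (Matrix.vandermonde fun t => a t * y t + d t).det = 0 := by
    refine Finset.sum_eq_zero fun y _ => ?_
    by_contra hne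
    rcases mul_ne_zero_iff.1 hne with ⟨h1, h2⟩
    exact hcon ⟨y, Matrix.det_vandermonde_ne_zero_iff.1 h1, Matrix.det_vandermonde_ne_zero_iff.1 h2⟩
  have hdet : ∀ v : Fin q → K, (Matrix.vandermonde v).det
      = ∑ σ : Perm (Fin q), ((Perm.sign σ : ℤ) : K) * ∏ t, v t ^ (σ t : ℕ) := by
    intro v
    rw [← Matrix.det_transpose, Matrix.det_apply']
    rfl
  simp_rw [hdet] at hz
  have h3 : ∀ y : Fin q → K,
      (∑ σ : Perm (Fin q), ((Perm.sign σ : ℤ) : K) * ∏ t, y t ^ (σ t : ℕ)) *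
      (∑ τ : Perm (Fin q), ((Perm.sign τ : ℤ) : K) * ∏ t, (a t * y t + d t) ^ (τ t : ℕ))
      = ∑ τ : Perm (Fin q), ∑ σ : Perm (Fin q), (((Perm.sign σ : ℤ) : K) * ((Perm.sign τ : ℤ) : K)) *
        ∏ t, (y t ^ (σ t : ℕ) * (a t * y t + d t) ^ (τ t : ℕ)) := by
    intro y
    rw [Finset.sum_mul_sum, Finset.sum_comm]
    refine Finset.sum_congr rfl fun τ _ => Finset.sum_congr rfl fun σ _ => ?_
    rw [Finset.prod_mul_distrib]; ring
  simp_rw [h3] at hz
  rw [Finset.sum_comm] at hz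
  have h4 : ∀ τ : Perm (Fin q), ∑ y : Fin q → K, ∑ σ : Perm (Fin q),
      (((Perm.sign σ : ℤ) : K) * ((Perm.sign τ : ℤ) : K)) *
        ∏ t, (y t ^ (σ t : ℕ) * (a t * y t + d t) ^ (τ t : ℕ))
      = (((Perm.sign (Fin.revPerm (n := q)) : ℤ) : K) * (-1) ^ q) * ∏ t, a t ^ (τ t : ℕ) := by
    intro τ
    rw [Finset.sum_comm]
    have h5 : ∀ σ : Perm (Fin q), ∑ y : Fin q → K,
        (((Perm.sign σ : ℤ) : K) * ((Perm.sign τ : ℤ) : K)) *
          ∏ t, (y t ^ (σ t : ℕ) * (a t * y t + d t) ^ (τ t : ℕ))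
        = (((Perm.sign σ : ℤ) : K) * ((Perm.sign τ : ℤ) : K)) *
          ∏ t, ∑ y : K, (y ^ (σ t : ℕ) * (a t * y + d t) ^ (τ t : ℕ)) := by
      intro σ
      rw [← Finset.mul_sum, Finset.prod_univ_sum, Fintype.piFinset_univ]
    simp_rw [h5]
    rw [Finset.sum_eq_single (Fin.revPerm * τ)]
    · have h6 : ∀ t, ∑ y : K, (y ^ ((Fin.revPerm * τ : Perm (Fin q)) t : ℕ) * (a t * y + d t) ^ (τ t : ℕ))
          = (-1) * a t ^ (τ t : ℕ) := by
        intro t
        have h7 : ((Fin.revPerm * τ : Perm (Fin q)) t : ℕ) + (τ t : ℕ) = Fintype.card K - 1 := by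
          simp only [Perm.coe_mul, Function.comp_apply, Fin.revPerm_apply, Fin.val_rev]
          have := (τ t).2
          omega
        rw [sum_line _ _ _ _ h7.le, h7, sum_pow_top]; ring
      simp_rw [h6]
      rw [Finset.prod_mul_distrib, Finset.prod_const, Finset.card_univ, Fintype.card_fin,
        Perm.sign_mul]
      have h8 : ((Perm.sign τ : ℤ) : K) * ((Perm.sign τ : ℤ) : K) = 1 := by
        rw [← Int.cast_mul, ← Units.val_mul, Int.units_mul_self]; simp
      push_cast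
      linear_combination (((Perm.sign (Fin.revPerm (n := q)) : ℤ) : K) * (-1) ^ q *
        ∏ t, a t ^ (τ t : ℕ)) * h8
    · intro σ _ hσ
      have h9 : ∃ t, (σ t : ℕ) + (τ t : ℕ) < q - 1 := by
        by_contra hall
        push Not at hall
        exact hσ (eq_rev_of_le σ τ hall)
      obtain ⟨t, ht⟩ := h9
      rw [Finset.prod_eq_zero (Finset.mem_univ t), mul_zero]
      rw [sum_line _ _ _ _ (by omega), FiniteField.sum_pow_lt_card_sub_one K _ (by omega), mul_zero]
    · intro h; exact absurd (Finset.mem_univ _) h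
  simp_rw [h4] at hz
  rw [← Finset.mul_sum] at hz
  rcases mul_eq_zero.1 hz with h | h
  · rcases mul_eq_zero.1 h with h | h
    · rcases Int.units_eq_one_or (Perm.sign (Fin.revPerm (n := q))) with h1 | h1 <;>
        rw [h1] at h <;> simp at h
    · exact pow_ne_zero _ (neg_ne_zero.2 one_ne_zero) h
  · exact hper h

end Pool.Agent.P.MP_50d982_co
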