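import Mathlib

namespace Pool.Agent.P.MP_50d982_co

/-- `f : Q^m → Q` is a latin `m`-cube: injective along every line. -/
def IsLatin {Q : Type*} {m : ℕ} (f : (Fin m → Q) → Q) : Prop :=
  ∀ (x : Fin m → Q) (j : Fin m), Function.Injective fun v : Q => f (Function.update x j v)

/-- The array with layers `C i` has a transversal: `|Q|` cells with layer `i t` and position `x t` in distinct layers,
each coordinate of `x t` and the entry running over all of `Q`. -/
def HasTransversal {Q : Type*} {k m : ℕ} (C : Fin k → (Fin m → Q) → Q) : Prop :=
  ∃ (i : Q → Fin k) (x : Q → Fin m → Q), Function.Injective i ∧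
    (∀ j, Function.Bijective fun t => x t j) ∧ Function.Bijective fun t => C (i t) (x t)

/-- `f` is affine in coordinate `j` with slope `a`: `f x = a * x j + g` with `g` independent
of `x j`. -/
def AffineIn {p m : ℕ} (f : (Fin m → ZMod p) → ZMod p) (j : Fin m) (a : ZMod p) : Prop :=
  ∀ x : Fin m → ZMod p, f x = a * x j + f (Function.update x j 0)

end Pool.Agent.P.MP_50d982_co
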