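import Mathlib

/-! Drisko's theorem: `2q-1` permutations of a `q`-set have a rainbow transversal. -/

namespace Pool.Agent.P.MP_50d982_co

open Finset

variable {Q ι : Type*} [Fintype Q] [DecidableEq Q] [Fintype ι] [DecidableEq ι]

/-- A rainbow matching covering the right vertices in `B`. -/
def RM (σ : ι → Q → Q) (B : Finset Q) (m : Q → Q) (c : Q → ι) : Prop :=
  Set.InjOn m B ∧ Set.InjOn c B ∧ ∀ w ∈ B, σ (c w) (m w) = w

omit [Fintype Q] [Fintype ι] [DecidableEq ι] in
theorem injOn_update {α : Type*} (f : Q → α) (B : Finset Q) (w : Q) (v : α) (hf : Set.InjOn f B)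
    (hv : ∀ u ∈ B, f u ≠ v) : Set.InjOn (Function.update f w v) (insert w B : Finset Q) := by
  intro x hx y hy hxy
  simp only [Finset.coe_insert, Set.mem_insert_iff, Finset.mem_coe] at hx hy
  by_cases h1 : x = w <;> by_cases h2 : y = w
  · rw [h1, h2]
  · subst h1
    rw [Function.update_self, Function.update_of_ne h2] at hxy
    exact absurd hxy.symm (hv y (hy.resolve_left h2))
  · subst h2
    rw [Function.update_self, Function.update_of_ne h1] at hxy
    exact absurd hxy (hv x (hx.resolve_left h1))
  · rw [Function.update_of_ne h1, Function.update_of_ne h2] at hxy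
    exact hf (hx.resolve_left h1) (hy.resolve_left h2) hxy

omit [Fintype Q] [Fintype ι] [DecidableEq ι] in
theorem RM.update {σ : ι → Q → Q} {B : Finset Q} {m : Q → Q} {c : Q → ι} (h : RM σ B m c)
    (v : Q) (i : ι) (hv : ∀ u ∈ B, m u ≠ v) (hi : ∀ u ∈ B, c u ≠ i) :
    RM σ (insert (σ i v) B) (Function.update m (σ i v) v) (Function.update c (σ i v) i) := by
  refine ⟨injOn_update m B _ v h.1 hv, injOn_update c B _ i h.2.1 hi, ?_⟩
  intro w hw
  by_cases h1 : w = σ i v
  · rw [h1, Function.update_self, Function.update_self]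
  · rw [Function.update_of_ne h1, Function.update_of_ne h1]
    exact h.2.2 w ((Finset.mem_insert.1 hw).resolve_left h1)

theorem RM.augment {σ : ι → Q → Q} (hσ : ∀ i, Function.Injective (σ i))
    (hN : 2 * Fintype.card Q ≤ Fintype.card ι + 1) {B : Finset Q} {m : Q → Q} {c : Q → ι}
    (h : RM σ B m c) (hB : B.card < Fintype.card Q) :
    ∃ B' m' c', RM σ B' m' c' ∧ B'.card = B.card + 1 := by
  by_contra hcon
  have key : ∀ n : ℕ, ∃ (D : Finset Q) (U : Finset ι), D ⊆ B ∧ D.card = n ∧ U.card ≤ n ∧
      ∀ v, v ∉ (B \ D).image m → ∃ m' c', RM σ B m' c' ∧ (∀ u ∈ B, m' u ≠ v) ∧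
        (∀ w ∈ B \ D, m' w = m w) ∧ ∀ u ∈ B, c' u ∈ B.image c ∪ U := by
    intro n
    induction n with
    | zero =>
      refine ⟨∅, ∅, Finset.empty_subset _, rfl, le_rfl, fun v hv => ⟨m, c, h, ?_, fun _ _ => rfl, ?_⟩⟩
      · intro u hu huv
        exact hv (Finset.mem_image.2 ⟨u, by simpa using hu, huv⟩)
      · intro u hu
        exact Finset.mem_union_left _ (Finset.mem_image_of_mem c hu)
    | succ n ih =>
      obtain ⟨D, U, hDB, hD, hU, hall⟩ := ih
      have hnk : n ≤ B.card := hD ▸ Finset.card_le_card hDB
      obtain ⟨i, hi⟩ : ∃ i, i ∉ B.image c ∪ U := by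
        by_contra hno
        push Not at hno
        have h1 : (Finset.univ : Finset ι) ⊆ B.image c ∪ U := fun i _ => hno i
        have h2 := Finset.card_le_card h1
        have h3 := Finset.card_union_le (B.image c) U
        have h4 : (B.image c).card ≤ B.card := Finset.card_image_le
        rw [Finset.card_univ] at h2
        omega
      obtain ⟨v, hv, hw⟩ : ∃ v, v ∉ (B \ D).image m ∧ σ i v ∉ D := by
        by_contra hno
        push Not at hno
        have h1 : (((B \ D).image m)ᶜ).image (σ i) ⊆ D := by
          intro w hw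
          obtain ⟨v, hv, rfl⟩ := Finset.mem_image.1 hw
          exact hno v (Finset.mem_compl.1 hv)
        have h2 := Finset.card_le_card h1
        rw [Finset.card_image_of_injective _ (hσ i), Finset.card_compl] at h2
        have h3 : ((B \ D).image m).card ≤ (B \ D).card := Finset.card_image_le
        rw [Finset.card_sdiff_of_subset hDB] at h3
        omega
      obtain ⟨m', c', hm', hmv, hmm, hcc⟩ := hall v hv
      have hci : ∀ u ∈ B, c' u ≠ i := fun u hu huc => hi (huc ▸ hcc u hu)
      have hup := hm'.update v i hmv hci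
      by_cases hwB : σ i v ∈ B
      · rw [Finset.insert_eq_of_mem hwB] at hup
        refine ⟨insert (σ i v) D, insert i U, Finset.insert_subset hwB hDB,
          by rw [Finset.card_insert_of_notMem hw, hD],
          (Finset.card_insert_le _ _).trans (by omega), fun v' hv' => ?_⟩
        have hsub : B \ insert (σ i v) D ⊆ B \ D :=
          Finset.sdiff_subset_sdiff (Finset.Subset.refl _) (Finset.subset_insert _ _)
        have hsubU : B.image c ∪ U ⊆ B.image c ∪ insert i U :=
          Finset.union_subset_union (Finset.Subset.refl _) (Finset.subset_insert _ _)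
        by_cases hold : v' ∈ (B \ D).image m
        · obtain ⟨u, hu, huv⟩ := Finset.mem_image.1 hold
          have hu' : u = σ i v := by
            by_contra hne
            refine hv' (Finset.mem_image.2 ⟨u, ?_, huv⟩)
            rw [Finset.mem_sdiff] at hu ⊢
            exact ⟨hu.1, fun hh => (Finset.mem_insert.1 hh).elim hne hu.2⟩
          subst hu'
          refine ⟨_, _, hup, ?_, ?_, ?_⟩
          · intro x hx
            by_cases h1 : x = σ i v
            · rw [h1, Function.update_self]
              intro h2
              exact hv (h2 ▸ hold)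
            · rw [Function.update_of_ne h1, ← huv, ← hmm _ hu]
              exact fun h2 => h1 (hm'.1 hx hwB h2)
          · intro x hx
            have h1 : x ≠ σ i v := fun h2 =>
              (Finset.mem_sdiff.1 hx).2 (h2 ▸ Finset.mem_insert_self _ _)
            rw [Function.update_of_ne h1]
            exact hmm x (hsub hx)
          · intro x hx
            by_cases h1 : x = σ i v
            · rw [h1, Function.update_self]
              exact Finset.mem_union_right _ (Finset.mem_insert_self _ _)
            · rw [Function.update_of_ne h1]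
              exact hsubU (hcc x hx)
        · obtain ⟨m2, c2, h1, h2, h3, h4⟩ := hall v' hold
          exact ⟨m2, c2, h1, h2, fun w hw => h3 w (hsub hw), fun u hu => hsubU (h4 u hu)⟩
      · exact absurd ⟨_, _, _, hup, Finset.card_insert_of_notMem hwB⟩ hcon
  obtain ⟨D, _, hDB, hD, -⟩ := key (B.card + 1)
  have := Finset.card_le_card hDB
  omega

theorem drisko [Nonempty ι] (hN : 2 * Fintype.card Q ≤ Fintype.card ι + 1) (σ : ι → Q → Q)
    (hσ : ∀ i, Function.Injective (σ i)) :
    ∃ (c : Q → ι) (m : Q → Q), Function.Injective c ∧ Function.Injective m ∧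
      ∀ w, σ (c w) (m w) = w := by
  have key : ∀ k ≤ Fintype.card Q, ∃ B m c, RM σ B m c ∧ B.card = k := by
    intro k
    induction k with
    | zero =>
      intro _
      exact ⟨∅, id, fun _ => Classical.arbitrary ι, ⟨by simp, by simp, by simp⟩, rfl⟩
    | succ k ih =>
      intro hk
      obtain ⟨B, m, c, h, hB⟩ := ih (by omega)
      obtain ⟨B', m', c', h', hB'⟩ := h.augment hσ hN (by omega)
      exact ⟨B', m', c', h', by omega⟩
  obtain ⟨B, m, c, h, hB⟩ := key _ le_rfl
  rw [Finset.card_eq_iff_eq_univ] at hB
  subst hB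
  refine ⟨c, m, ?_, ?_, fun w => h.2.2 w (Finset.mem_univ w)⟩
  · intro x y hxy; exact h.2.1 (by simp) (by simp) hxy
  · intro x y hxy; exact h.1 (by simp) (by simp) hxy

end Pool.Agent.P.MP_50d982_co
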