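import Pool.Agent.P.MP_50d982_co.Defs

/-! Random diagonals in high dimension: cells with one free position are almost independent. -/

namespace Pool.Agent.P.MP_50d982_co

open Finset Equiv

section HD

variable {Q ι : Type*} [Fintype Q] [DecidableEq Q] [Fintype ι] [DecidableEq ι]

/-- The element acting by `σ` in coordinate `j`. -/
def sg (j : ι) (σ : Perm Q) : ι → Perm Q := fun l => if l = j then σ else 1

omit [Fintype Q] [DecidableEq Q] [Fintype ι] in
theorem sg_mul (j : ι) (σ τ : Perm Q) : sg j (σ * τ) = sg j σ * sg j τ := by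
  funext l
  simp only [sg, Pi.mul_apply]
  split_ifs <;> simp

omit [Fintype Q] [DecidableEq Q] [Fintype ι] in
theorem sg_one (j : ι) : sg j (1 : Perm Q) = 1 := by
  funext l
  simp [sg]

omit [Fintype Q] [DecidableEq Q] [Fintype ι] in
theorem sg_comm {l j : ι} (h : l ≠ j) (σ τ : Perm Q) : sg l σ * sg j τ = sg j τ * sg l σ := by
  funext k
  simp only [sg, Pi.mul_apply]
  split_ifs with h1 h2
  · exact absurd (h1.symm.trans h2) h
  all_goals simp

/-- `φ` depends on coordinate `j` only through the image of `a`, with zero sum over that image. -/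
def ZL (a : Q) (j : ι) (φ : (ι → Perm Q) → ℝ) : Prop :=
  (∀ π (σ : Perm Q), σ a = a → φ (π * sg j σ) = φ π) ∧
    ∀ π, ∑ u, φ (π * sg j (swap a u)) = 0

theorem ZL.cross {a b : Q} (hab : a ≠ b) {j : ι} {φ : (ι → Perm Q) → ℝ} (h : ZL a j φ) :
    ∑ π, φ π * φ (π * sg j (swap a b)) ≤ 0 := by
  set c : Q → ℝ := fun u => ∑ π, φ π * φ (π * sg j (swap a u)) with hc
  have h1 : ∀ u, u ≠ a → c u = c b := fun u hu => by
    have ha : swap b u a = a := swap_apply_of_ne_of_ne hab hu.symm
    simp only [hc]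
    rw [← Equiv.sum_comp (Equiv.mulRight (sg j (swap b u)))
      fun π => φ π * φ (π * sg j (swap a b))]
    refine sum_congr rfl fun π _ => ?_
    simp only [coe_mulRight]
    rw [h.1 _ _ ha, mul_assoc, ← sg_mul, mul_swap_eq_swap_mul, ha, swap_apply_left,
      sg_mul, ← mul_assoc, h.1 _ _ ha]
  have h2 : ∑ u, c u = 0 := by
    simp only [hc]
    rw [sum_comm]
    exact sum_eq_zero fun π _ => by rw [← mul_sum, h.2, mul_zero]
  have h3 : 0 ≤ c a := sum_nonneg fun π _ => by
    rw [swap_self, show (Equiv.refl Q : Perm Q) = 1 from rfl, sg_one, mul_one]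
    exact mul_self_nonneg _
  rw [← add_sum_erase _ _ (mem_univ a), sum_congr rfl fun u hu => h1 u (mem_erase.1 hu).1,
    sum_const, nsmul_eq_mul] at h2
  have h4 : (0 : ℝ) < #(univ.erase a) :=
    Nat.cast_pos.2 (card_pos.2 ⟨b, mem_erase.2 ⟨hab.symm, mem_univ _⟩⟩)
  by_contra hn
  have := mul_pos h4 (not_le.1 hn)
  linarith

theorem swap_bound {a b : Q} (hab : a ≠ b) (φ Ψ : (ι → Perm Q) → ℝ) (hφ : ∀ j, ZL a j φ)
    (hΨ : ∀ (j : ι) π, Ψ (π * sg j (swap a b)) = Ψ π) :
    2 ^ Fintype.card ι * (∑ π, φ π * Ψ π) ^ 2 ≤ (∑ π, φ π ^ 2) * ∑ π, Ψ π ^ 2 := by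
  have key : ∀ J : Finset ι, ∃ ψ : (ι → Perm Q) → ℝ, (∀ j ∉ J, ZL a j ψ) ∧
      ∑ π, ψ π * Ψ π = 2 ^ #J * ∑ π, φ π * Ψ π ∧ ∑ π, ψ π ^ 2 ≤ 2 ^ #J * ∑ π, φ π ^ 2 := by
    intro J
    induction J using Finset.induction_on with
    | empty => exact ⟨φ, fun j _ => hφ j, by simp, by simp⟩
    | insert j J hj ih =>
      obtain ⟨ψ, h1, h2, h3⟩ := ih
      refine ⟨fun π => ψ π + ψ (π * sg j (swap a b)), fun l hl => ?_, ?_, ?_⟩
      · have hlj : l ≠ j := fun k => hl (k ▸ mem_insert_self _ _)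
        have hz := h1 l fun k => hl (mem_insert_of_mem k)
        have hcm : ∀ (π : ι → Perm Q) (σ : Perm Q), π * sg l σ * sg j (swap a b) =
            π * sg j (swap a b) * sg l σ := fun π σ => by
          rw [mul_assoc, mul_assoc, sg_comm hlj]
        refine ⟨fun π σ hσ => ?_, fun π => ?_⟩
        · simp only [hcm, hz.1 _ _ hσ]
        · simp only [hcm, sum_add_distrib, hz.2, add_zero]
      · have e := Equiv.sum_comp (Equiv.mulRight (sg j (swap a b)))
          fun π => ψ π * Ψ π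
        simp only [coe_mulRight, hΨ] at e
        simp only [add_mul, sum_add_distrib, e, h2, card_insert_of_notMem hj]
        ring
      · have e := Equiv.sum_comp (Equiv.mulRight (sg j (swap a b)))
          fun π => ψ π ^ 2
        simp only [coe_mulRight] at e
        have hc := (h1 j hj).cross hab
        simp only [add_sq, sum_add_distrib, e, card_insert_of_notMem hj, mul_assoc, ← mul_sum,
          pow_succ (2 : ℝ) #J]
        nlinarith
  obtain ⟨ψ, -, h2, h3⟩ := key univ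
  rw [card_univ] at h2 h3
  have h4 := sum_mul_sq_le_sq_mul_sq univ ψ Ψ
  have h5 : (0 : ℝ) < 2 ^ Fintype.card ι := by positivity
  have h6 : 0 ≤ ∑ π, Ψ π ^ 2 := sum_nonneg fun _ _ => sq_nonneg _
  rw [h2] at h4
  refine le_of_mul_le_mul_left ?_ h5
  nlinarith [mul_le_mul_of_nonneg_right h3 h6]

/-- The cell at position `t` of the diagonal `π`. -/
def pt (π : ι → Perm Q) (t : Q) : ι → Q := fun j => π j t

omit [Fintype Q] [DecidableEq Q] [Fintype ι] in
theorem pt_fix (π : ι → Perm Q) (j : ι) {σ : Perm Q} {t : Q} (h : σ t = t) :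
    pt (π * sg j σ) t = pt π t := by
  funext l
  simp only [pt, sg, Pi.mul_apply, Perm.mul_apply]
  split_ifs <;> simp [h]

omit [Fintype ι] in
theorem zl_pt (G : (ι → Q) → ℝ) (hG : ∀ x j, ∑ v, G (Function.update x j v) = 0) (a : Q)
    (j : ι) : ZL a j fun π => G (pt π a) := by
  refine ⟨fun π σ h => by simp only [pt_fix π j h], fun π => ?_⟩
  rw [← hG (pt π a) j, ← Equiv.sum_comp (π j) fun v => G (Function.update (pt π a) j v)]
  refine sum_congr rfl fun u _ => congrArg G (funext fun l => ?_)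
  by_cases hl : l = j
  · subst hl
    simp [pt, sg]
  · simp [pt, sg, hl]

theorem sum_pt (h : (ι → Q) → ℝ) (a : Q) :
    (Fintype.card Q : ℝ) ^ Fintype.card ι * ∑ π : ι → Perm Q, h (pt π a) =
      Fintype.card (ι → Perm Q) * ∑ x, h x := by
  have h1 : ∀ u : ι → Q, ∑ π : ι → Perm Q, h (fun j => π j (u j)) =
      ∑ π : ι → Perm Q, h (pt π a) := fun u => by
    rw [← Equiv.sum_comp (Equiv.mulRight (fun j => swap a (u j) : ι → Perm Q))
      fun π => h (pt π a)]
    refine sum_congr rfl fun π _ => congrArg h (funext fun j => ?_)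
    simp [pt]
  have h2 : ∀ π : ι → Perm Q, ∑ u : ι → Q, h (fun j => π j (u j)) = ∑ x, h x := fun π =>
    Equiv.sum_comp (Equiv.piCongrRight π) h
  have h3 := sum_comm (s := univ) (t := univ)
    (f := fun (u : ι → Q) (π : ι → Perm Q) => h fun j => π j (u j))
  simpa only [h1, h2, sum_const, nsmul_eq_mul, card_univ, Fintype.card_fun, Nat.cast_pow] using h3

theorem tele {a b : Q} (hab : a ≠ b) (h : (ι → Q) → ℝ) (hh : ∀ x, |h x| ≤ 1 / 2)
    (I : Q → (ι → Q) → ℝ) (hI : ∀ t x, 0 ≤ I t x ∧ I t x ≤ 1) {δ : ℝ} (hδ : 0 ≤ δ)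
    (hn : 1 ≤ δ ^ 2 * 2 ^ Fintype.card ι) (T : Finset Q) (ha : a ∉ T) (hb : b ∉ T)
    (hT : ∀ t ∈ T, ∀ x j, ∑ v, I t (Function.update x j v) = 1) :
    |∑ π : ι → Perm Q, h (pt π a) * ∏ t ∈ T, I t (pt π t) -
      (1 / Fintype.card Q : ℝ) ^ #T * ∑ π : ι → Perm Q, h (pt π a)| ≤
      δ * Fintype.card (ι → Perm Q) := by
  induction T using Finset.induction_on with
  | empty => simp; positivity
  | insert c T hc ih =>
    have hq : (2 : ℝ) ≤ Fintype.card Q := by
      exact_mod_cast Fintype.one_lt_card_iff.2 ⟨a, b, hab⟩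
    have hcb : c ≠ b := fun k => hb (k ▸ mem_insert_self _ _)
    have hca : a ≠ c := fun k => ha (k ▸ mem_insert_self _ _)
    have ih' := ih (fun k => ha (mem_insert_of_mem k)) (fun k => hb (mem_insert_of_mem k))
      fun t ht => hT t (mem_insert_of_mem ht)
    set r : ℝ := 1 / Fintype.card Q with hr
    have hr0 : 0 ≤ r := by positivity
    have hr1 : r ≤ 1 / 2 := one_div_le_one_div_of_le two_pos hq
    set N : ℝ := (Fintype.card (ι → Perm Q) : ℝ) with hN
    have hN0 : 0 ≤ N := by positivity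
    have key := swap_bound hcb (fun π => I c (pt π c) - r)
      (fun π => h (pt π a) * ∏ t ∈ T, I t (pt π t))
      (zl_pt (fun x => I c x - r) (fun x j => by
        rw [sum_sub_distrib, hT c (mem_insert_self _ _), sum_const, nsmul_eq_mul, card_univ, hr]
        field_simp
        ring) c)
      fun j π => by
        rw [pt_fix π j (swap_apply_of_ne_of_ne hca hab)]
        congr 1
        refine prod_congr rfl fun t ht => ?_
        rw [pt_fix π j (swap_apply_of_ne_of_ne (fun k : t = c => hc (k ▸ ht))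
          fun k : t = b => hb (mem_insert_of_mem (k ▸ ht)))]
    have b1 : ∑ π : ι → Perm Q, (I c (pt π c) - r) ^ 2 ≤ N := by
      refine (sum_le_card_nsmul _ _ 1 fun π _ => ?_).trans (by simp [hN])
      have := hI c (pt π c)
      nlinarith
    have b2 : ∑ π : ι → Perm Q, (h (pt π a) * ∏ t ∈ T, I t (pt π t)) ^ 2 ≤ N * (1 / 4) := by
      refine (sum_le_card_nsmul _ _ (1 / 4) fun π _ => ?_).trans (by simp [hN])
      have e1 : 0 ≤ ∏ t ∈ T, I t (pt π t) := prod_nonneg fun t _ => (hI t _).1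
      have e2 : ∏ t ∈ T, I t (pt π t) ≤ 1 := prod_le_one (fun t _ => (hI t _).1) fun t _ => (hI t _).2
      have e3 := abs_le.1 (hh (pt π a))
      rw [mul_pow]
      have e4 : h (pt π a) ^ 2 ≤ 1 / 4 := by nlinarith
      nlinarith [mul_le_mul e4 (pow_le_one₀ (n := 2) e1 e2) (sq_nonneg _) (by norm_num)]
    set X := ∑ π : ι → Perm Q, (I c (pt π c) - r) * (h (pt π a) * ∏ t ∈ T, I t (pt π t)) with hX
    have b3 : |X| ≤ δ * N / 2 := by
      refine abs_le_of_sq_le_sq ?_ (by positivity)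
      have e1 := key.trans (mul_le_mul b1 b2 (sum_nonneg fun _ _ => sq_nonneg _) hN0)
      nlinarith [mul_le_mul_of_nonneg_left e1 (sq_nonneg δ),
        mul_le_mul_of_nonneg_right hn (sq_nonneg X)]
    have e : ∑ π : ι → Perm Q, h (pt π a) * ∏ t ∈ insert c T, I t (pt π t) -
        r ^ #(insert c T) * ∑ π : ι → Perm Q, h (pt π a) =
        X + r * (∑ π : ι → Perm Q, h (pt π a) * ∏ t ∈ T, I t (pt π t) -
          r ^ #T * ∑ π : ι → Perm Q, h (pt π a)) := by
      rw [hX, card_insert_of_notMem hc, mul_sub, ← add_sub_assoc, mul_sum _ _ r,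
        ← sum_add_distrib]
      congr 1
      · exact sum_congr rfl fun π _ => by rw [prod_insert hc]; ring
      · ring
    rw [e]
    refine (abs_add_le _ _).trans ?_
    rw [abs_mul, abs_of_nonneg hr0]
    nlinarith [mul_le_mul hr1 ih' (abs_nonneg _) (by norm_num)]

theorem hd_main {a b : Q} (hab : a ≠ b) (U : Q → (ι → Q) → Prop) [∀ t, DecidablePred (U t)]
    (hU : ∀ t, t ≠ a → t ≠ b → ∀ x j, #{v | U t (Function.update x j v)} = 1) {ε : ℝ}
    (hε : 0 < ε)
    (hd : (1 + ε) * Fintype.card Q ^ Fintype.card ι ≤ #{x | U a x} + #{x | U b x})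
    (hn : 9 * (Fintype.card Q : ℝ) ^ (2 * (Fintype.card Q - 2)) ≤ ε ^ 2 * 2 ^ Fintype.card ι) :
    ∃ π : ι → Perm Q, ∀ t, U t (pt π t) := by
  by_contra hcon
  push Not at hcon
  set T := (univ.erase a).erase b with hT
  have hTc : #T = Fintype.card Q - 2 := by
    rw [hT, card_erase_of_mem (mem_erase.2 ⟨hab.symm, mem_univ _⟩),
      card_erase_of_mem (mem_univ _), card_univ]
    omega
  let I : Q → (ι → Q) → ℝ := fun t x => if U t x then 1 else 0
  have hI : ∀ t x, 0 ≤ I t x ∧ I t x ≤ 1 := fun t x => by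
    simp only [I]
    split_ifs <;> norm_num
  have hh : ∀ t x, |I t x - 1 / 2| ≤ 1 / 2 := fun t x => by
    have := hI t x
    rw [abs_le]
    constructor <;> linarith
  have hL : ∀ t ∈ T, ∀ x j, ∑ v, I t (Function.update x j v) = 1 := fun t ht x j => by
    simp only [hT, mem_erase] at ht
    simp only [I, sum_boole, hU t ht.2.1 ht.1, Nat.cast_one]
  have hq : (0 : ℝ) < Fintype.card Q := Nat.cast_pos.2 (Fintype.card_pos_iff.2 ⟨a⟩)
  set R : ℝ := (1 / Fintype.card Q) ^ #T with hR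
  have hR0 : 0 < R := by positivity
  have hδ : 1 ≤ (ε * R / 3) ^ 2 * 2 ^ Fintype.card ι := by
    have e : R ^ 2 * (Fintype.card Q : ℝ) ^ (2 * (Fintype.card Q - 2)) = 1 := by
      rw [hR, hTc, pow_mul', ← mul_pow, ← mul_pow, one_div_mul_cancel hq.ne', one_pow, one_pow]
    nlinarith [mul_le_mul_of_nonneg_left hn (sq_nonneg R)]
  have ha : a ∉ T := by simp [hT]
  have hb : b ∉ T := by simp [hT]
  have k1 := abs_le.1 (tele hab _ (hh a) I hI (by positivity) hδ T ha hb hL)
  have k2 := abs_le.1 (tele hab.symm _ (hh b) I hI (by positivity) hδ T hb ha hL)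
  rw [← hR] at k1 k2
  set N : ℝ := (Fintype.card (ι → Perm Q) : ℝ) with hN
  have hN0 : 0 < N := Nat.cast_pos.2 Fintype.card_pos
  have k3 : ∑ π : ι → Perm Q, (I a (pt π a) - 1 / 2) * ∏ t ∈ T, I t (pt π t) +
      ∑ π : ι → Perm Q, (I b (pt π b) - 1 / 2) * ∏ t ∈ T, I t (pt π t) ≤ 0 := by
    rw [← sum_add_distrib]
    refine sum_nonpos fun π _ => ?_
    rw [← add_mul]
    obtain ⟨t, ht⟩ := hcon π
    have e0 : I t (pt π t) = 0 := if_neg ht
    have e1 : 0 ≤ ∏ t ∈ T, I t (pt π t) := prod_nonneg fun t _ => (hI t _).1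
    by_cases h1 : t = a
    · exact mul_nonpos_of_nonpos_of_nonneg (by linarith [h1 ▸ e0, (hI b (pt π b)).2]) e1
    by_cases h2 : t = b
    · exact mul_nonpos_of_nonpos_of_nonneg (by linarith [h2 ▸ e0, (hI a (pt π a)).2]) e1
    · rw [prod_eq_zero (f := fun t => I t (pt π t)) (show t ∈ T by simp [hT, h1, h2]) e0, mul_zero]
  have k4 : ε * N ≤ ∑ π : ι → Perm Q, (I a (pt π a) - 1 / 2) +
      ∑ π : ι → Perm Q, (I b (pt π b) - 1 / 2) := by
    have e1 := sum_pt (I a) a
    have e2 := sum_pt (I b) b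
    simp only [I, sum_boole] at e1 e2
    simp only [sum_sub_distrib, sum_const, card_univ, nsmul_eq_mul, I, sum_boole, ← hN] at e1 e2 ⊢
    have e3 : (0 : ℝ) < Fintype.card Q ^ Fintype.card ι := by positivity
    refine le_of_mul_le_mul_left ?_ e3
    nlinarith [mul_le_mul_of_nonneg_left hd hN0.le]
  nlinarith [mul_le_mul_of_nonneg_left k4 hR0.le, mul_pos (mul_pos hε hR0) hN0]

theorem two_pools {k m : ℕ} (C : Fin k → (Fin m → Q) → Q) (A B : Finset (Fin k))
    (hAB : Disjoint A B) (hk : #A + #B + Fintype.card Q ≤ k + 2)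
    (hC : ∀ i, i ∉ A → i ∉ B → IsLatin (C i)) {a b : Q} (hab : a ≠ b) {ε : ℝ} (hε : 0 < ε)
    (hd : (1 + ε) * Fintype.card Q ^ m ≤
      #{x | ∃ i ∈ A, C i x = a} + #{x | ∃ i ∈ B, C i x = b})
    (hn : 9 * (Fintype.card Q : ℝ) ^ (2 * (Fintype.card Q - 2)) ≤ ε ^ 2 * 2 ^ m) :
    HasTransversal C := by
  classical
  obtain ⟨f, hf⟩ := Function.Embedding.exists_of_card_le_finset
    (α := {t : Q // t ∈ (univ.erase a).erase b}) (s := (A ∪ B)ᶜ) (by
      rw [Fintype.card_coe, card_erase_of_mem (mem_erase.2 ⟨hab.symm, mem_univ _⟩),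
        card_erase_of_mem (mem_univ _), card_univ, card_compl, card_union_of_disjoint hAB,
        Fintype.card_fin]
      omega)
  have hf' : ∀ t, f t ∉ A ∧ f t ∉ B := fun t => by simpa using hf ⟨t, rfl⟩
  let P : Q → Finset (Fin k) := fun t =>
    if h : t ∈ (univ.erase a).erase b then {f ⟨t, h⟩} else if t = a then A else B
  have hPa : P a = A := by simp [P]
  have hPb : P b = B := by simp [P, hab.symm]
  have hP : ∀ t (h : t ∈ (univ.erase a).erase b), P t = {f ⟨t, h⟩} := fun t h => dif_pos h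
  have hdis : ∀ s t i, i ∈ P s → i ∈ P t → s = t := by
    have tri : ∀ t, t = a ∨ t = b ∨ t ∈ (univ.erase a).erase b := fun t => by
      simp only [mem_erase, mem_univ, and_true]
      tauto
    intro s t i hs ht
    rcases tri s with rfl | rfl | h1 <;> rcases tri t with rfl | rfl | h2
    · rfl
    · exact absurd (hPb ▸ ht) (disjoint_left.1 hAB (hPa ▸ hs))
    · rw [hP t h2, mem_singleton] at ht
      exact absurd (ht ▸ hPa ▸ hs) (hf' _).1
    · exact absurd (hPb ▸ hs) (disjoint_left.1 hAB (hPa ▸ ht))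
    · rfl
    · rw [hP t h2, mem_singleton] at ht
      exact absurd (ht ▸ hPb ▸ hs) (hf' _).2
    · rw [hP s h1, mem_singleton] at hs
      exact absurd (hs ▸ hPa ▸ ht) (hf' _).1
    · rw [hP s h1, mem_singleton] at hs
      exact absurd (hs ▸ hPb ▸ ht) (hf' _).2
    · rw [hP s h1, mem_singleton] at hs
      rw [hP t h2, mem_singleton] at ht
      exact congrArg Subtype.val (f.injective (hs.symm.trans ht))
  obtain ⟨π, hπ⟩ := hd_main (ι := Fin m) hab (fun t x => ∃ i ∈ P t, C i x = t)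
    (fun t h1 h2 x j => by
      have h : t ∈ (univ.erase a).erase b := by simp [h1, h2]
      obtain ⟨v, hv, hu⟩ := (Function.bijective_iff_existsUnique _).1
        (Finite.injective_iff_bijective.1 (hC _ (hf' ⟨t, h⟩).1 (hf' ⟨t, h⟩).2 x j)) t
      refine card_eq_one.2 ⟨v, ?_⟩
      ext w
      simp only [hP t h, mem_filter, mem_univ, true_and, mem_singleton, exists_eq_left]
      exact ⟨hu w, fun k => k ▸ hv⟩) hε
    (by simpa only [hPa, hPb, Fintype.card_fin] using hd) (by simpa only [Fintype.card_fin] using hn)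
  choose i hi hs using hπ
  refine ⟨i, pt π, fun s t h => hdis s t _ (hi s) (h ▸ hi t), fun j => (π j).bijective, ?_⟩
  simp only [hs]
  exact Function.bijective_id

end HD

end Pool.Agent.P.MP_50d982_co
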