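import Pool.Agent.P.MP_50d982_co.HD

/-! Two cells of a random diagonal are almost uncorrelated, in every dimension. -/

namespace Pool.Agent.P.MP_50d982_co

open Finset Equiv

section HD2

variable {Q ι : Type*} [Fintype Q] [DecidableEq Q] [Fintype ι] [DecidableEq ι]

theorem ZL.orth {a : Q} {j : ι} {φ : (ι → Perm Q) → ℝ} (h : ZL a j φ) (Ψ : (ι → Perm Q) → ℝ)
    (hΨ : ∀ π (σ : Perm Q), Ψ (π * sg j σ) = Ψ π) : ∑ π, φ π * Ψ π = 0 := by
  have h1 : ∀ u, ∑ π, φ (π * sg j (swap a u)) * Ψ π = ∑ π, φ π * Ψ π := fun u => by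
    have e := Equiv.sum_comp (Equiv.mulRight (sg j (swap a u))) fun π => φ π * Ψ π
    simpa only [coe_mulRight, hΨ] using e
  have h2 : ∑ u, ∑ π, φ (π * sg j (swap a u)) * Ψ π = 0 := by
    rw [sum_comm]
    exact sum_eq_zero fun π _ => by rw [← sum_mul, h.2, zero_mul]
  simp only [h1, sum_const, card_univ, nsmul_eq_mul] at h2
  exact (mul_eq_zero.1 h2).resolve_left (Nat.cast_pos.2 (Fintype.card_pos_iff.2 ⟨a⟩)).ne'

omit [Fintype Q] [DecidableEq Q] [Fintype ι] in
theorem pt_sg (π : ι → Perm Q) (j : ι) (σ : Perm Q) (t : Q) :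
    pt (π * sg j σ) t = Function.update (pt π t) j (π j (σ t)) := by
  funext l
  by_cases hl : l = j
  · subst hl
    simp [pt, sg]
  · simp [pt, sg, hl]

omit [Fintype ι] in
theorem zl_pt1 (G : (ι → Q) → ℝ) (j : ι) (hG : ∀ x, ∑ v, G (Function.update x j v) = 0) (a : Q) :
    ZL a j fun π => G (pt π a) := by
  refine ⟨fun π σ h => by simp only [pt_fix π j h], fun π => ?_⟩
  rw [← hG (pt π a), ← Equiv.sum_comp (π j) fun v => G (Function.update (pt π a) j v)]
  exact sum_congr rfl fun u _ => by simp only [pt_sg, swap_apply_left]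

theorem cross_bound {a b : Q} (hab : a ≠ b) (j : ι) (h g : (ι → Q) → ℝ)
    (hg : ∀ x, ∑ v, g (Function.update x j v) = 0) :
    -((∑ π : ι → Perm Q, h (pt π a) ^ 2 + ∑ π : ι → Perm Q, g (pt π b) ^ 2) / 2) ≤
      (Fintype.card Q - 1) * ∑ π : ι → Perm Q, h (pt π a) * g (pt π b) := by
  set c : Q → ℝ := fun u => ∑ π : ι → Perm Q, h (pt π a) * g (pt (π * sg j (swap b u)) b) with hc
  have h1 : ∀ u, u ≠ a → c u = ∑ π : ι → Perm Q, h (pt π a) * g (pt π b) := fun u hu => by
    have e := Equiv.sum_comp (Equiv.mulRight (sg j (swap b u)))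
      fun π : ι → Perm Q => h (pt π a) * g (pt π b)
    simpa only [coe_mulRight, pt_fix _ j (swap_apply_of_ne_of_ne hab hu.symm)] using e
  have h2 : ∑ u, c u = 0 := by
    simp only [hc]
    rw [sum_comm]
    exact sum_eq_zero fun π _ => by rw [← mul_sum, (zl_pt1 g j hg b).2, mul_zero]
  have h3 : c a ≤ (∑ π : ι → Perm Q, h (pt π a) ^ 2 + ∑ π : ι → Perm Q, g (pt π b) ^ 2) / 2 := by
    rw [← Equiv.sum_comp (Equiv.mulRight (sg j (swap b a))) fun π : ι → Perm Q => g (pt π b) ^ 2,
      ← sum_add_distrib, sum_div]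
    refine sum_le_sum fun π _ => ?_
    simp only [coe_mulRight]
    nlinarith [sq_nonneg (h (pt π a) - g (pt (π * sg j (swap b a)) b))]
  rw [← add_sum_erase _ _ (mem_univ a), sum_congr rfl fun u hu => h1 u (mem_erase.1 hu).1,
    sum_const, nsmul_eq_mul, card_erase_of_mem (mem_univ _), card_univ,
    Nat.cast_sub (Fintype.card_pos_iff.2 ⟨a⟩), Nat.cast_one] at h2
  linarith

/-- The average of `h` over the line in direction `j`. -/
noncomputable def lav (j : ι) (h : (ι → Q) → ℝ) (x : ι → Q) : ℝ :=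
  (∑ v, h (Function.update x j v)) / Fintype.card Q

omit [DecidableEq Q] [Fintype ι] in
theorem lav_update (j : ι) (h : (ι → Q) → ℝ) (x : ι → Q) (v : Q) :
    lav j h (Function.update x j v) = lav j h x := by
  simp only [lav, Function.update_idem]

omit [DecidableEq Q] [Fintype ι] in
theorem sum_sub_lav [Nonempty Q] (j : ι) (h : (ι → Q) → ℝ) (x : ι → Q) :
    ∑ v, (h (Function.update x j v) - lav j h (Function.update x j v)) = 0 := by
  have : (Fintype.card Q : ℝ) ≠ 0 := (Nat.cast_pos.2 Fintype.card_pos).ne'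
  simp only [lav_update, sum_sub_distrib, sum_const, card_univ, nsmul_eq_mul]
  rw [lav]
  field_simp
  ring

theorem pair_bound {a b : Q} (hab : a ≠ b) (J : Finset ι) : ∀ h g : (ι → Q) → ℝ,
    (∀ l ∉ J, ∀ x v, h (Function.update x l v) = h x) →
    (∀ l ∉ J, ∀ x v, g (Function.update x l v) = g x) →
    -((Fintype.card (ι → Perm Q) * ∑ π : ι → Perm Q, h (pt π a) ^ 2 -
        (∑ π : ι → Perm Q, h (pt π a)) ^ 2 +
      (Fintype.card (ι → Perm Q) * ∑ π : ι → Perm Q, g (pt π b) ^ 2 -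
        (∑ π : ι → Perm Q, g (pt π b)) ^ 2)) / 2) ≤
      (Fintype.card Q - 1) * (Fintype.card (ι → Perm Q) *
        ∑ π : ι → Perm Q, h (pt π a) * g (pt π b) -
        (∑ π : ι → Perm Q, h (pt π a)) * ∑ π : ι → Perm Q, g (pt π b)) := by
  induction J using Finset.induction_on with
  | empty =>
    have key : ∀ h : (ι → Q) → ℝ, (∀ l ∉ (∅ : Finset ι), ∀ x v, h (Function.update x l v) = h x) →
        ∀ y, h y = h fun _ => a := fun h hh y => by
      have : ∀ s : Finset ι, h (s.piecewise y fun _ => a) = h fun _ => a := fun s => by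
        induction s using Finset.induction_on with
        | empty => simp
        | insert l s _ ih => rw [piecewise_insert, hh l (notMem_empty _), ih]
      simpa using this univ
    intro h g hh hg
    simp only [key h hh (pt _ _), key g hg (pt _ _), sum_const, card_univ, nsmul_eq_mul]
    apply le_of_eq
    ring
  | insert j J hj ih =>
    intro h g hh hg
    have : Nonempty Q := ⟨a⟩
    have dep : ∀ h : (ι → Q) → ℝ, (∀ l ∉ insert j J, ∀ x v, h (Function.update x l v) = h x) →
        ∀ l ∉ J, ∀ x v, lav j h (Function.update x l v) = lav j h x := fun h hh l hl x v => by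
      by_cases e : l = j
      · rw [e, lav_update]
      · simp only [lav, Function.update_comm e, hh l (by simp [e, hl])]
    have inv : ∀ (h : (ι → Q) → ℝ) (t : Q) (π : ι → Perm Q) (σ : Perm Q),
        lav j h (pt (π * sg j σ) t) = lav j h (pt π t) := fun h t π σ => by
      rw [pt_sg, lav_update]
    have z := fun (h : (ι → Q) → ℝ) (t : Q) =>
      zl_pt1 (fun x => h x - lav j h x) j (sum_sub_lav j h) t
    have k0 := ih _ _ (dep h hh) (dep g hg)
    have k1 := cross_bound hab j (fun x => h x - lav j h x) (fun x => g x - lav j g x)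
      (sum_sub_lav j g)
    have m1 : ∀ (h : (ι → Q) → ℝ) (t : Q), ∑ π : ι → Perm Q, h (pt π t) =
        ∑ π : ι → Perm Q, lav j h (pt π t) := fun h t => by
      simpa only [mul_one, sum_sub_distrib, sub_eq_zero] using (z h t).orth (fun _ => 1) fun _ _ => rfl
    have m2 : ∀ (h g : (ι → Q) → ℝ) (s t : Q), ∑ π : ι → Perm Q, h (pt π s) * g (pt π t) =
        ∑ π : ι → Perm Q, lav j h (pt π s) * lav j g (pt π t) + ∑ π : ι → Perm Q,
          (h (pt π s) - lav j h (pt π s)) * (g (pt π t) - lav j g (pt π t)) := fun h g s t => by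
      have e1 := (z h s).orth (fun π => lav j g (pt π t)) (inv g t)
      have e2 := (z g t).orth (fun π => lav j h (pt π s)) (inv h s)
      rw [← sub_eq_zero, ← sum_add_distrib, ← sum_sub_distrib, ← add_zero 0]
      nth_rewrite 1 [← e1]
      rw [← e2, ← sum_add_distrib]
      exact sum_congr rfl fun π _ => by ring
    have hN : (0 : ℝ) ≤ Fintype.card (ι → Perm Q) := Nat.cast_nonneg _
    simp only [sq] at k0 k1 ⊢
    rw [m1 h, m1 g, m2 h g, m2 h h, m2 g g]
    nlinarith [mul_le_mul_of_nonneg_left k1 hN]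

theorem tele2 {c : Q} (H : (ι → Perm Q) → ℝ) (hH : ∀ π, |H π| ≤ 1)
    (I : Q → (ι → Q) → ℝ) (hI : ∀ t x, 0 ≤ I t x ∧ I t x ≤ 1) {δ : ℝ} (hδ : 0 ≤ δ)
    (hn : 1 ≤ δ ^ 2 * 2 ^ Fintype.card ι) (T : Finset Q) (hc : c ∉ T)
    (hinv : ∀ t ∈ T, ∀ j π, H (π * sg j (swap t c)) = H π)
    (hT : ∀ t ∈ T, ∀ x j, ∑ v, I t (Function.update x j v) = 1) :
    |∑ π : ι → Perm Q, H π * ∏ t ∈ T, I t (pt π t) -
      (1 / Fintype.card Q : ℝ) ^ #T * ∑ π : ι → Perm Q, H π| ≤
      2 * δ * Fintype.card (ι → Perm Q) := by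
  induction T using Finset.induction_on with
  | empty => simp; positivity
  | insert s T hs ih =>
    have hsc : s ≠ c := fun k => hc (k ▸ mem_insert_self _ _)
    have hq : (2 : ℝ) ≤ Fintype.card Q := by
      exact_mod_cast Fintype.one_lt_card_iff.2 ⟨s, c, hsc⟩
    have ih' := ih (fun k => hc (mem_insert_of_mem k)) (fun t ht => hinv t (mem_insert_of_mem ht))
      fun t ht => hT t (mem_insert_of_mem ht)
    set r : ℝ := 1 / Fintype.card Q with hr
    have hr0 : 0 ≤ r := by positivity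
    have hr1 : r ≤ 1 / 2 := one_div_le_one_div_of_le two_pos hq
    set N : ℝ := (Fintype.card (ι → Perm Q) : ℝ) with hN
    have hN0 : 0 ≤ N := by positivity
    have key := swap_bound hsc (fun π => I s (pt π s) - r)
      (fun π => H π * ∏ t ∈ T, I t (pt π t))
      (zl_pt (fun x => I s x - r) (fun x j => by
        rw [sum_sub_distrib, hT s (mem_insert_self _ _), sum_const, nsmul_eq_mul, card_univ, hr]
        field_simp
        ring) s)
      fun j π => by
        rw [hinv s (mem_insert_self _ _)]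
        congr 1
        refine prod_congr rfl fun t ht => ?_
        rw [pt_fix π j (swap_apply_of_ne_of_ne (fun k : t = s => hs (k ▸ ht))
          fun k : t = c => hc (mem_insert_of_mem (k ▸ ht)))]
    have b1 : ∑ π : ι → Perm Q, (I s (pt π s) - r) ^ 2 ≤ N := by
      refine (sum_le_card_nsmul _ _ 1 fun π _ => ?_).trans (by simp [hN])
      have := hI s (pt π s)
      nlinarith
    have b2 : ∑ π : ι → Perm Q, (H π * ∏ t ∈ T, I t (pt π t)) ^ 2 ≤ N := by
      refine (sum_le_card_nsmul _ _ 1 fun π _ => ?_).trans (by simp [hN])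
      have e1 : 0 ≤ ∏ t ∈ T, I t (pt π t) := prod_nonneg fun t _ => (hI t _).1
      have e2 : ∏ t ∈ T, I t (pt π t) ≤ 1 := prod_le_one (fun t _ => (hI t _).1) fun t _ => (hI t _).2
      have e3 := abs_le.1 (hH π)
      rw [mul_pow]
      have e4 : H π ^ 2 ≤ 1 := by nlinarith
      nlinarith [mul_le_mul e4 (pow_le_one₀ (n := 2) e1 e2) (sq_nonneg _) (by norm_num)]
    set X := ∑ π : ι → Perm Q, (I s (pt π s) - r) * (H π * ∏ t ∈ T, I t (pt π t)) with hX
    have b3 : |X| ≤ δ * N := by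
      refine abs_le_of_sq_le_sq ?_ (by positivity)
      have e1 := key.trans (mul_le_mul b1 b2 (sum_nonneg fun _ _ => sq_nonneg _) hN0)
      nlinarith [mul_le_mul_of_nonneg_left e1 (sq_nonneg δ),
        mul_le_mul_of_nonneg_right hn (sq_nonneg X)]
    have e : ∑ π : ι → Perm Q, H π * ∏ t ∈ insert s T, I t (pt π t) -
        r ^ #(insert s T) * ∑ π : ι → Perm Q, H π =
        X + r * (∑ π : ι → Perm Q, H π * ∏ t ∈ T, I t (pt π t) -
          r ^ #T * ∑ π : ι → Perm Q, H π) := by
      rw [hX, card_insert_of_notMem hs, mul_sub, ← add_sub_assoc, mul_sum _ _ r,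
        ← sum_add_distrib]
      congr 1
      · exact sum_congr rfl fun π _ => by rw [prod_insert hs]; ring
      · ring
    rw [e]
    refine (abs_add_le _ _).trans ?_
    rw [abs_mul, abs_of_nonneg hr0]
    nlinarith [mul_le_mul hr1 ih' (abs_nonneg _) (by norm_num)]

theorem pair_ind {a b : Q} (hab : a ≠ b) (h g : (ι → Q) → ℝ) (hh : ∀ x, h x ^ 2 = h x)
    (hg : ∀ x, g x ^ 2 = g x) {u v : ℝ}
    (hu : ∑ π : ι → Perm Q, h (pt π a) = u * Fintype.card (ι → Perm Q))
    (hv : ∑ π : ι → Perm Q, g (pt π b) = v * Fintype.card (ι → Perm Q)) :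
    (u * v - 1 / (4 * (Fintype.card Q - 1))) * Fintype.card (ι → Perm Q) ≤
      ∑ π : ι → Perm Q, h (pt π a) * g (pt π b) := by
  have k := pair_bound hab univ h g (by simp) (by simp)
  simp only [hh, hg, hu, hv] at k
  have hq : (2 : ℝ) ≤ Fintype.card Q := by
    exact_mod_cast Fintype.one_lt_card_iff.2 ⟨a, b, hab⟩
  set N : ℝ := (Fintype.card (ι → Perm Q) : ℝ) with hN
  have hN0 : 0 < N := Nat.cast_pos.2 Fintype.card_pos
  have h1 : (0 : ℝ) < Fintype.card Q - 1 := by linarith
  refine le_of_mul_le_mul_left ?_ (mul_pos h1 hN0)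
  have e : (Fintype.card Q - 1 : ℝ) * N * ((u * v - 1 / (4 * (Fintype.card Q - 1))) * N) =
      (Fintype.card Q - 1) * (u * N * (v * N)) - N ^ 2 / 4 := by
    field_simp
  rw [e]
  nlinarith [sq_nonneg (N * (u - 1 / 2)), sq_nonneg (N * (v - 1 / 2))]

theorem common_pool {k m : ℕ} [Nonempty (Fin k)] (C : Fin k → (Fin m → Q) → Q)
    (hC : ∀ i, IsLatin (C i)) (W : Finset (Fin k)) (hk : #W + Fintype.card Q ≤ k + 3) {a b c : Q}
    (hab : a ≠ b) (hac : a ≠ c) (hbc : b ≠ c) {ε : ℝ} (hε : 0 < ε) (μ : Q → ℝ)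
    (hμ : ∀ s, μ s * Fintype.card Q ^ m = #{x | ∃ i ∈ W, C i x = s})
    (hd : 3 * #W / Fintype.card Q ^ 2 + 1 / (2 * (Fintype.card Q - 1)) + ε ≤
      μ a * (μ b + μ c - 1))
    (hn : (6 * #W + 7) ^ 2 * (Fintype.card Q : ℝ) ^ (2 * (Fintype.card Q - 3)) ≤ ε ^ 2 * 2 ^ m) :
    HasTransversal C := by
  classical
  by_contra hcon
  set T := ((univ.erase a).erase b).erase c with hT
  have hTm : ∀ t, t ∈ T ↔ t ≠ a ∧ t ≠ b ∧ t ≠ c := fun t => by
    simp only [hT, mem_erase, mem_univ, and_true]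
    tauto
  have hTc : #T = Fintype.card Q - 3 := by
    rw [hT, card_erase_of_mem (by simp [hac.symm, hbc.symm]),
      card_erase_of_mem (mem_erase.2 ⟨hab.symm, mem_univ _⟩), card_erase_of_mem (mem_univ _),
      card_univ]
    omega
  obtain ⟨L, hL1, hL2⟩ := (T.finite_toSet).exists_injOn_of_encard_le
    (t := ((Wᶜ : Finset (Fin k)) : Set (Fin k))) (by
      rw [Set.encard_coe_eq_coe_finsetCard, Set.encard_coe_eq_coe_finsetCard, Nat.cast_le, hTc,
        card_compl, Fintype.card_fin]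
      omega)
  have hLW : ∀ t ∈ T, L t ∉ W := fun t ht => by simpa using hL1 ht
  let E : Fin k → Q → (Fin m → Q) → ℝ := fun i t x => if C i x = t then 1 else 0
  have hE : ∀ i t x, 0 ≤ E i t x ∧ E i t x ≤ 1 := fun i t x => by
    simp only [E]
    split_ifs <;> norm_num
  have hEl : ∀ i t x j, ∑ v, E i t (Function.update x j v) = 1 := fun i t x j => by
    obtain ⟨v, hv, hu⟩ := (Function.bijective_iff_existsUnique _).1
      (Finite.injective_iff_bijective.1 (hC i x j)) t
    rw [sum_eq_single v (fun w _ hw => if_neg fun e => hw (hu w e)) (by simp)]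
    exact if_pos hv
  let U : Q → (Fin m → Q) → ℝ := fun s x => if ∃ i ∈ W, C i x = s then 1 else 0
  have hU : ∀ s x, U s x ^ 2 = U s x := fun s x => by
    simp only [U]
    split_ifs <;> norm_num
  have hU1 : ∀ s x, 0 ≤ U s x ∧ U s x ≤ 1 := fun s x => by
    simp only [U]
    split_ifs <;> norm_num
  have hq : (2 : ℝ) ≤ Fintype.card Q := by
    exact_mod_cast Fintype.one_lt_card_iff.2 ⟨a, b, hab⟩
  have hq0 : (0 : ℝ) < Fintype.card Q := by linarith
  set R : ℝ := (1 / Fintype.card Q) ^ #T with hR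
  have hR0 : 0 < R := by positivity
  set δ : ℝ := ε * R / (6 * #W + 7) with hδ
  have hδ0 : 0 ≤ δ := by positivity
  have hδn : 1 ≤ δ ^ 2 * 2 ^ Fintype.card (Fin m) := by
    have e : R ^ 2 * (Fintype.card Q : ℝ) ^ (2 * (Fintype.card Q - 3)) = 1 := by
      rw [hR, hTc, pow_mul', ← mul_pow, ← mul_pow, one_div_mul_cancel hq0.ne', one_pow, one_pow]
    rw [hδ, div_pow, div_mul_eq_mul_div, le_div_iff₀ (by positivity), Fintype.card_fin]
    nlinarith [mul_le_mul_of_nonneg_left hn (sq_nonneg R)]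
  set N : ℝ := (Fintype.card (Fin m → Perm Q) : ℝ) with hN
  have hN0 : 0 < N := Nat.cast_pos.2 Fintype.card_pos
  have hS : ∀ s, ∑ π : Fin m → Perm Q, U s (pt π s) = μ s * N := fun s => by
    have e := sum_pt (U s) s
    simp only [U, sum_boole, Fintype.card_fin, ← hμ, ← hN] at e ⊢
    refine mul_left_cancel₀ (pow_pos hq0 m).ne' (e.trans ?_)
    ring
  let P : (Fin m → Perm Q) → ℝ := fun π => ∏ t ∈ T, E (L t) t (pt π t)
  have two : ∀ s t u, u ≠ s → u ≠ t → s ∉ T → t ∉ T → u ∉ T → ∀ h g : (Fin m → Q) → ℝ,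
      (∀ x, 0 ≤ h x ∧ h x ≤ 1) → (∀ x, 0 ≤ g x ∧ g x ≤ 1) →
      |∑ π, h (pt π s) * g (pt π t) * P π - R * ∑ π, h (pt π s) * g (pt π t)| ≤ 2 * δ * N :=
    fun s t u h1 h2 hs ht hu h g hh hg =>
      tele2 (c := u) (fun π => h (pt π s) * g (pt π t)) (fun π => by
        have := hh (pt π s)
        have := hg (pt π t)
        rw [abs_of_nonneg (by nlinarith)]
        nlinarith) (fun t => E (L t) t) (fun t => hE _ _) hδ0 hδn T hu (fun r hr j π => by
          rw [pt_fix π j (swap_apply_of_ne_of_ne (fun e : s = r => hs (e ▸ hr)) h1.symm),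
            pt_fix π j (swap_apply_of_ne_of_ne (fun e : t = r => ht (e ▸ hr)) h2.symm)])
        fun t _ => hEl _ _
  have col : ∀ s t u, s ≠ t → u ≠ s → u ≠ t → s ∉ T → t ∉ T → u ∉ T → ∀ i,
      ∑ π, E i s (pt π s) * E i t (pt π t) * P π ≤ R * N / Fintype.card Q ^ 2 + 2 * δ * N :=
    fun s t u h0 h1 h2 hs ht hu i => by
      have k1 := tele2 (c := u) (fun _ => 1) (by simp) (fun r => E (if r ∈ T then L r else i) r)
        (fun t => hE _ _) hδ0 hδn (insert s (insert t T)) (by simp [h1, h2, hu])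
        (fun _ _ _ _ => rfl) fun t _ => hEl _ _
      have hs' : s ∉ insert t T := by simp [h0, hs]
      have e : ∀ π : Fin m → Perm Q, ∏ r ∈ T, E (if r ∈ T then L r else i) r (pt π r) = P π :=
        fun π => prod_congr rfl fun r hr => by rw [if_pos hr]
      simp only [prod_insert hs', prod_insert ht, if_neg hs, if_neg ht, e, one_mul, ← mul_assoc,
        card_insert_of_notMem hs', card_insert_of_notMem ht, sum_const, card_univ, nsmul_eq_mul,
        mul_one, pow_succ _ (#T + 1), pow_succ _ #T, ← hR, ← hN] at k1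
      have e2 : R * (1 / Fintype.card Q) * (1 / Fintype.card Q) * N =
          R * N / Fintype.card Q ^ 2 := by
        field_simp
      linarith [(abs_le.1 k1).2]
  have ha : a ∉ T := by simp [hTm]
  have hb : b ∉ T := by simp [hTm]
  have hc : c ∉ T := by simp [hTm]
  have pw : ∀ π : Fin m → Perm Q, U a (pt π a) * U b (pt π b) * P π +
      U a (pt π a) * U c (pt π c) * P π - U a (pt π a) * 1 * P π ≤
      ∑ i ∈ W, (E i a (pt π a) * E i b (pt π b) * P π + E i a (pt π a) * E i c (pt π c) * P π +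
        E i b (pt π b) * E i c (pt π c) * P π) := fun π => by
    by_cases h0 : ∀ t ∈ T, C (L t) (pt π t) = t
    swap
    · push Not at h0
      obtain ⟨t, ht, h0⟩ := h0
      have : P π = 0 := prod_eq_zero ht (if_neg h0)
      simp [this]
    have hP : P π = 1 := prod_eq_one fun t ht => if_pos (h0 t ht)
    have nn : ∀ i s t, 0 ≤ E i s (pt π s) * E i t (pt π t) := fun i s t =>
      mul_nonneg (hE _ _ _).1 (hE _ _ _).1
    simp only [hP, mul_one]
    have n0 : ∀ i ∈ W, 0 ≤ E i a (pt π a) * E i b (pt π b) + E i a (pt π a) * E i c (pt π c) +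
        E i b (pt π b) * E i c (pt π c) := fun i _ => by
      linarith [nn i a b, nn i a c, nn i b c]
    by_cases h1 : (∃ i ∈ W, C i (pt π a) = a) ∧ (∃ i ∈ W, C i (pt π b) = b) ∧
        ∃ i ∈ W, C i (pt π c) = c
    swap
    · refine le_trans ?_ (sum_nonneg n0)
      simp only [U]
      split_ifs <;> first | exact absurd ⟨‹_›, ‹_›, ‹_›⟩ h1 | norm_num
    simp only [U, if_pos h1.1, if_pos h1.2.1, if_pos h1.2.2]
    obtain ⟨⟨ia, ha1, ha2⟩, ⟨ib, hb1, hb2⟩, ic, hc1, hc2⟩ := h1
    by_cases e1 : ia = ib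
    · refine le_trans ?_ (single_le_sum n0 ha1)
      have k1 : E ia a (pt π a) = 1 := if_pos ha2
      have k2 : E ia b (pt π b) = 1 := if_pos (e1 ▸ hb2)
      nlinarith [nn ia a c, nn ia b c]
    by_cases e2 : ia = ic
    · refine le_trans ?_ (single_le_sum n0 ha1)
      have k1 : E ia a (pt π a) = 1 := if_pos ha2
      have k2 : E ia c (pt π c) = 1 := if_pos (e2 ▸ hc2)
      nlinarith [nn ia a b, nn ia b c]
    by_cases e3 : ib = ic
    · refine le_trans ?_ (single_le_sum n0 hb1)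
      have k1 : E ib b (pt π b) = 1 := if_pos hb2
      have k2 : E ib c (pt π c) = 1 := if_pos (e3 ▸ hc2)
      nlinarith [nn ib a b, nn ib a c]
    refine absurd ⟨fun t => if t = a then ia else if t = b then ib else if t = c then ic else L t,
      pt π, fun s t h => ?_, fun j => (π j).bijective, ?_⟩ hcon
    · have := @hL2 s
      simp only [mem_coe] at this
      grind
    · have : ∀ t, C (if t = a then ia else if t = b then ib else if t = c then ic else L t)
          (pt π t) = t := fun t => by grind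
      simp only [this]
      exact Function.bijective_id
  have k0 := sum_le_sum fun π (_ : π ∈ univ) => pw π
  rw [sum_comm, sum_sub_distrib, sum_add_distrib] at k0
  have k1 := (abs_le.1 (two a b c hac.symm hbc.symm ha hb hc _ _ (hU1 a) (hU1 b))).1
  have k2 := (abs_le.1 (two a c b hab.symm hbc ha hc hb _ _ (hU1 a) (hU1 c))).1
  have k3 := (abs_le.1 (two a b c hac.symm hbc.symm ha hb hc _ (fun _ => 1) (hU1 a)
    fun _ => by norm_num)).2
  have k4 := k0.trans (sum_le_card_nsmul W _ (3 * (R * N / Fintype.card Q ^ 2 + 2 * δ * N))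
    fun i _ => by
      rw [sum_add_distrib, sum_add_distrib]
      linarith [col a b c hab hac.symm hbc.symm ha hb hc i, col a c b hac hab.symm hbc ha hc hb i,
        col b c a hbc hab hac hb hc ha i])
  have k5 := mul_le_mul_of_nonneg_left (pair_ind hab _ _ (hU a) (hU b) (hS a) (hS b)) hR0.le
  have k6 := mul_le_mul_of_nonneg_left (pair_ind hac _ _ (hU a) (hU c) (hS a) (hS c)) hR0.le
  have k7 := mul_le_mul_of_nonneg_left hd (mul_pos hR0 hN0).le
  have k8 : δ * (6 * #W + 7) = ε * R := by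
    rw [hδ]
    field_simp
  have k9 : 1 / (2 * (Fintype.card Q - 1 : ℝ)) = 2 * (1 / (4 * (Fintype.card Q - 1))) := by
    have : (Fintype.card Q - 1 : ℝ) ≠ 0 := by linarith
    field_simp
    ring
  have k10 : 0 < δ * N := by positivity
  simp only [mul_one, hS] at k3 k4
  rw [nsmul_eq_mul] at k4
  rw [k9] at k7
  rw [← hN] at k5 k6
  have k11 : R * N * (3 * #W / Fintype.card Q ^ 2) = 3 * #W * (R * N / Fintype.card Q ^ 2) := by
    ring
  have k12 := congrArg (· * N) k8
  nlinarith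

theorem spread {k m : ℕ} (C : Fin k → (Fin m → Q) → Q) (hC : ∀ i, IsLatin (C i))
    (W : Finset (Fin k)) (hk : #W + Fintype.card Q ≤ k + 3) (hW : #W ≤ Fintype.card Q + 2)
    (hq0 : 0 < Fintype.card Q)
    (hd : (Fintype.card Q + 7) * Fintype.card Q ^ m ≤ 2 * ∑ x, #(W.image fun i => C i x))
    (hm : Fintype.card Q ^ (2 * Fintype.card Q) ≤ 2 ^ m) : HasTransversal C := by
  classical
  set q := Fintype.card Q with hq
  have hqm : (0 : ℝ) < (q : ℝ) ^ m := by positivity
  set μ : Q → ℝ := fun s => #{x | ∃ i ∈ W, C i x = s} / (q : ℝ) ^ m with hμ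
  have hμ1 : ∀ s, μ s ≤ 1 := fun s => by
    rw [hμ, div_le_one hqm]
    have := card_le_univ ({x | ∃ i ∈ W, C i x = s} : Finset (Fin m → Q))
    rw [Fintype.card_fun, Fintype.card_fin] at this
    exact_mod_cast this
  have hD : (q + 7 : ℝ) ≤ 2 * ∑ s, μ s := by
    have e : ∑ s, #{x | ∃ i ∈ W, C i x = s} = ∑ x, #(W.image fun i => C i x) := by
      simp only [card_filter]
      rw [sum_comm]
      refine sum_congr rfl fun x _ => ?_
      rw [← card_filter]
      congr 1
      ext s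
      simp
    rw [← e] at hd
    rw [hμ, ← sum_div, ← mul_div_assoc, le_div_iff₀ hqm]
    exact_mod_cast hd
  have hq7 : (7 : ℝ) ≤ q := by
    have := sum_le_card_nsmul univ μ 1 fun s _ => hμ1 s
    rw [card_univ, nsmul_eq_mul, ← hq] at this
    linarith
  have hq7' : 7 ≤ q := by exact_mod_cast hq7
  obtain ⟨b, -, hb⟩ := exists_max_image univ μ (card_pos.1 (by rw [card_univ]; omega))
  have c1 : #(univ.erase b) = q - 1 := by rw [card_erase_of_mem (mem_univ _), card_univ]
  obtain ⟨c, hc', hc⟩ := exists_max_image (univ.erase b) μ (card_pos.1 (by omega))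
  have c2 : #((univ.erase b).erase c) = q - 2 := by rw [card_erase_of_mem hc', c1]; omega
  obtain ⟨a, ha', ha⟩ := exists_max_image ((univ.erase b).erase c) μ (card_pos.1 (by omega))
  have h1 := sum_le_card_nsmul _ μ _ ha
  rw [c2, nsmul_eq_mul, Nat.cast_sub (by omega), Nat.cast_two] at h1
  rw [← add_sum_erase _ _ (mem_univ b), ← add_sum_erase _ _ hc'] at hD
  have h2 := hc a (mem_of_mem_erase ha')
  have h3 := hb c (mem_univ _)
  have hW' : (#W : ℝ) ≤ q + 2 := by exact_mod_cast hW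
  have h4 : (q + 3) / (2 * (q - 2)) ≤ μ a := by
    rw [div_le_iff₀ (by linarith)]
    linarith [hμ1 b, hμ1 c]
  have h5 : 7 / q ≤ μ b + μ c - 1 := by
    rw [div_le_iff₀ (by linarith)]
    nlinarith
  have : Nonempty (Fin k) := ⟨⟨0, by omega⟩⟩
  refine common_pool C hC W hk (mem_erase.1 (mem_of_mem_erase ha')).1 (mem_erase.1 ha').1
    (mem_erase.1 hc').1.symm (ε := 11 / q ^ 2) (by positivity) μ
    (fun s => div_mul_cancel₀ _ hqm.ne') ?_ ?_
  · refine le_trans ?_ (mul_le_mul h4 h5 (by positivity)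
      (le_trans (div_nonneg (by linarith) (by linarith)) h4))
    rw [← hq]
    have e1 : (0 : ℝ) < q - 1 := by linarith
    have e2 : (0 : ℝ) < q - 2 := by linarith
    have e3 : 3 * (#W : ℝ) / q ^ 2 ≤ 3 * (q + 2) / q ^ 2 := by gcongr
    refine le_trans (add_le_add_left (add_le_add_left e3 _) _) ?_
    rw [← sub_nonneg]
    have e4 : (q + 3 : ℝ) / (2 * (q - 2)) * (7 / q) -
        (3 * (q + 2) / q ^ 2 + 1 / (2 * (q - 1)) + 11 / q ^ 2) =
        (69 * q - 68) / (2 * q ^ 2 * (q - 1) * (q - 2)) := by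
      field_simp
      ring
    rw [e4]
    exact div_nonneg (by linarith) (by positivity)
  · rw [← hq]
    have e1 : ((q : ℝ) ^ (2 * q)) ≤ 2 ^ m := by exact_mod_cast hm
    have e2 : (q : ℝ) ^ (2 * q) = q ^ (2 * (q - 3)) * q ^ 6 := by
      rw [← pow_add]
      congr 1
      omega
    have e3 : (6 * #W + 7 : ℝ) ^ 2 ≤ (11 * q) ^ 2 := by
      gcongr
      linarith
    calc _ ≤ (11 * q) ^ 2 * (q : ℝ) ^ (2 * (q - 3)) := by gcongr
      _ = (11 / q ^ 2) ^ 2 * (q : ℝ) ^ (2 * q) := by
        rw [e2]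
        field_simp
      _ ≤ _ := by gcongr

end HD2

end Pool.Agent.P.MP_50d982_co
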