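import Pool.Agent.P.MP_50d982_co.HD2

/-! Near transversals in high dimension. -/

namespace Pool.Agent.P.MP_50d982_co

open Finset Equiv

section HD3

variable {Q ι : Type*} [Fintype Q] [DecidableEq Q] [Fintype ι] [DecidableEq ι]

theorem near_sqrt [Nonempty ι] {c : Q} (I : Q → (ι → Q) → ℝ) (hI : ∀ t x, 0 ≤ I t x ∧ I t x ≤ 1)
    {δ ρ : ℝ} (hδ : 0 ≤ δ) (hn : 1 ≤ δ ^ 2 * 2 ^ Fintype.card ι) (hρ0 : 0 ≤ ρ)
    (hρ : ρ ^ 2 = 1 / Fintype.card Q) (T : Finset Q) (hc : c ∉ T)
    (hT : ∀ t ∈ T, ∀ x j, ∑ v, I t (Function.update x j v) = 1) :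
    ρ ^ #T - 4 * δ ≤
      √((∑ π : ι → Perm Q, ∏ t ∈ T, I t (pt π t)) / Fintype.card (ι → Perm Q)) := by
  set N : ℝ := (Fintype.card (ι → Perm Q) : ℝ) with hN
  have hN0 : 0 < N := Nat.cast_pos.2 Fintype.card_pos
  induction T using Finset.induction_on with
  | empty =>
    simp only [prod_empty, sum_const, card_univ, nsmul_eq_mul, mul_one, ← hN, div_self hN0.ne',
      Real.sqrt_one, card_empty, pow_zero]
    linarith
  | insert s T hs ih =>
    have hsc : s ≠ c := fun k => hc (k ▸ mem_insert_self _ _)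
    have hq : (2 : ℝ) ≤ Fintype.card Q := by
      exact_mod_cast Fintype.one_lt_card_iff.2 ⟨s, c, hsc⟩
    have ih' := ih (fun k => hc (mem_insert_of_mem k)) fun t ht => hT t (mem_insert_of_mem ht)
    have hr1 : ρ ^ 2 ≤ 1 / 2 := hρ ▸ one_div_le_one_div_of_le two_pos hq
    have hρ1 : ρ ≤ 3 / 4 := by nlinarith
    have z := zl_pt (fun x => I s x - ρ ^ 2) (fun x j => by
      rw [sum_sub_distrib, hT s (mem_insert_self _ _), sum_const, nsmul_eq_mul, card_univ, hρ]
      field_simp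
      ring) s
    have key := swap_bound hsc (fun π => I s (pt π s) - ρ ^ 2)
      (fun π => ∏ t ∈ T, I t (pt π t)) z fun j π => prod_congr rfl fun t ht => by
        rw [pt_fix π j (swap_apply_of_ne_of_ne (fun k : t = s => hs (k ▸ ht))
          fun k : t = c => hc (mem_insert_of_mem (k ▸ ht)))]
    have z0 := (z (Classical.arbitrary ι)).orth (fun _ => 1) fun _ _ => rfl
    have b1 : ∑ π : ι → Perm Q, (I s (pt π s) - ρ ^ 2) ^ 2 ≤ N * ρ ^ 2 := by
      have e : ∑ π : ι → Perm Q, (I s (pt π s) - ρ ^ 2) ^ 2 ≤ ∑ π : ι → Perm Q,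
          ((1 - 2 * ρ ^ 2) * ((I s (pt π s) - ρ ^ 2) * 1) + ρ ^ 2) := sum_le_sum fun π _ => by
        have := hI s (pt π s)
        nlinarith [sq_nonneg (ρ ^ 2)]
      rwa [sum_add_distrib, ← mul_sum, z0, mul_zero, zero_add, sum_const, card_univ, nsmul_eq_mul,
        ← hN] at e
    have p0 : ∀ π : ι → Perm Q, 0 ≤ ∏ t ∈ T, I t (pt π t) := fun π =>
      prod_nonneg fun t _ => (hI t _).1
    set S := ∑ π : ι → Perm Q, ∏ t ∈ T, I t (pt π t) with hS
    have b2 : ∑ π : ι → Perm Q, (∏ t ∈ T, I t (pt π t)) ^ 2 ≤ S := sum_le_sum fun π _ => by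
      have e2 : ∏ t ∈ T, I t (pt π t) ≤ 1 := prod_le_one (fun t _ => (hI t _).1) fun t _ => (hI t _).2
      nlinarith [p0 π]
    set y := √(S / N) with hy
    have hy0 : 0 ≤ y := Real.sqrt_nonneg _
    have hy2 : S = N * y ^ 2 := by
      have : 0 ≤ S := sum_nonneg fun π _ => p0 π
      rw [hy, Real.sq_sqrt (div_nonneg this hN0.le), mul_div_cancel₀ _ hN0.ne']
    set X := ∑ π : ι → Perm Q, (I s (pt π s) - ρ ^ 2) * ∏ t ∈ T, I t (pt π t) with hX
    have b3 : |X| ≤ δ * N * (ρ * y) := by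
      refine abs_le_of_sq_le_sq ?_ (by positivity)
      have e1 := key.trans (mul_le_mul b1 b2 (sum_nonneg fun _ _ => sq_nonneg _) (by positivity))
      rw [hy2] at e1
      nlinarith [mul_le_mul_of_nonneg_left e1 (sq_nonneg δ),
        mul_le_mul_of_nonneg_right hn (sq_nonneg X)]
    have e : ∑ π : ι → Perm Q, ∏ t ∈ insert s T, I t (pt π t) = X + ρ ^ 2 * S := by
      rw [hX, hS, mul_sum, ← sum_add_distrib]
      exact sum_congr rfl fun π _ => by rw [prod_insert hs]; ring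
    have k : ρ * y - δ ≤ √((X + ρ ^ 2 * S) / N) := by
      rcases le_total (ρ * y) δ with h | h
      · linarith [Real.sqrt_nonneg ((X + ρ ^ 2 * S) / N)]
      · refine Real.le_sqrt_of_sq_le ?_
        rw [le_div_iff₀ hN0, hy2]
        nlinarith [(abs_le.1 b3).1, mul_le_mul_of_nonneg_left h (mul_nonneg hδ hN0.le)]
    rw [e, card_insert_of_notMem hs, pow_succ]
    nlinarith [mul_le_mul_of_nonneg_left ih' hρ0, mul_le_mul_of_nonneg_left hρ1 hδ]

theorem near_main {m : ℕ} (hm : 16 * Fintype.card Q ^ (Fintype.card Q - 1) < 2 ^ m) (c : Q)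
    (f : Q → (Fin m → Q) → Q) (hf : ∀ t, t ≠ c → IsLatin (f t)) (s : Q → Q) :
    ∃ π : Fin m → Perm Q, ∀ t, t ≠ c → f t (pt π t) = s t := by
  have hq : 0 < Fintype.card Q := Fintype.card_pos_iff.2 ⟨c⟩
  have : Nonempty (Fin m) := by
    rcases m with _ | m
    · have := pow_pos hq (Fintype.card Q - 1)
      omega
    · infer_instance
  by_contra hcon
  push Not at hcon
  have h2 : (0 : ℝ) < 2 ^ m := by positivity
  have hq' : (0 : ℝ) < Fintype.card Q := Nat.cast_pos.2 hq
  have k := near_sqrt (c := c) (fun t x => if f t x = s t then 1 else 0)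
    (fun t x => by split_ifs <;> norm_num) (Real.sqrt_nonneg (1 / 2 ^ m))
    (by rw [Real.sq_sqrt (by positivity), Fintype.card_fin, one_div_mul_cancel h2.ne'])
    (Real.sqrt_nonneg _) (Real.sq_sqrt (by positivity)) (univ.erase c) (by simp)
    fun t ht x j => by
      obtain ⟨v, hv, hu⟩ := (Function.bijective_iff_existsUnique _).1
        (Finite.injective_iff_bijective.1 (hf t (mem_erase.1 ht).1 x j)) (s t)
      rw [sum_eq_single v (fun w _ hw => if_neg fun e => hw (hu w e)) (by simp)]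
      exact if_pos hv
  rw [sum_eq_zero fun π _ => by
      obtain ⟨t, h1, h3⟩ := hcon π
      exact prod_eq_zero (mem_erase.2 ⟨h1, mem_univ _⟩) (if_neg h3), zero_div, Real.sqrt_zero,
    card_erase_of_mem (mem_univ _), card_univ, sub_nonpos] at k
  have k2 := pow_le_pow_left₀ (by positivity) k 2
  rw [← pow_mul, mul_comm _ 2, pow_mul, mul_pow, Real.sq_sqrt (by positivity),
    Real.sq_sqrt (by positivity), one_div_pow, mul_one_div, div_le_div_iff₀ (by positivity) h2]
    at k2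
  have k3 : (16 * Fintype.card Q ^ (Fintype.card Q - 1) : ℝ) < 2 ^ m := by exact_mod_cast hm
  linarith

end HD3

end Pool.Agent.P.MP_50d982_co
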