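import Mathlib
import Pool.Agent.P.MP_50d982_co.Defs
import Pool.Agent.P.MP_50d982_co.Count
import Pool.Agent.P.MP_50d982_co.Perm
import Pool.Agent.P.MP_50d982_co.Drisko

namespace Pool.Agent.P.MP_50d982_co

open Finset Equiv

variable {p : ℕ} [hp : Fact p.Prime] {m : ℕ}

theorem slope_ne_zero {f : (Fin m → ZMod p) → ZMod p} (hf : IsLatin f) {j : Fin m} {a : ZMod p}
    (ha : AffineIn f j a) : a ≠ 0 := by
  intro h0
  have h1 := ha (Function.update (fun _ => 0) j 1)
  rw [h0, zero_mul, zero_add, Function.update_idem] at h1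
  exact one_ne_zero (hf (fun _ => 0) j h1)

/-- Rainbow matchings of lines, indexed by `ZMod p`. -/
theorem exists_rainbow' (E : ZMod p ≃ Fin p) (a : Fin p → ZMod p) (d : ZMod p → ZMod p)
    (hper : ∑ τ : Perm (Fin p), ∏ t, a t ^ (τ t : ℕ) ≠ 0) :
    ∃ y : ZMod p → ZMod p, Function.Bijective y ∧
      Function.Bijective fun t => a (E t) * y t + d t := by
  obtain ⟨y, h1, h2⟩ := exists_rainbow (ZMod.card p) a (fun s => d (E.symm s)) hper
  refine ⟨fun t => y (E t), Finite.injective_iff_bijective.1 (h1.comp E.injective),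
    Finite.injective_iff_bijective.1 ?_⟩
  have h3 := h2.comp E.injective
  intro s t hst
  apply h3
  simpa using hst

/-- Re-choose coordinate `j` along a rainbow diagonal. -/
theorem transversal_of_rainbow {k : ℕ} (C : Fin k → (Fin m → ZMod p) → ZMod p) (j : Fin m)
    (a : Fin k → ZMod p) (ha : ∀ i, AffineIn (C i) j (a i)) (i : ZMod p → Fin k)
    (hi : Function.Injective i) (x : ZMod p → Fin m → ZMod p)
    (hx : ∀ l, l ≠ j → Function.Bijective fun t => x t l) (y : ZMod p → ZMod p)
    (hy : Function.Bijective y)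
    (hz : Function.Bijective fun t => a (i t) * y t + C (i t) (Function.update (x t) j 0)) :
    HasTransversal C := by
  refine ⟨i, fun t => Function.update (x t) j (y t), hi, fun l => ?_, ?_⟩
  · by_cases hl : l = j
    · subst hl; simpa using hy
    · simpa [Function.update_of_ne hl] using hx l hl
  · have h1 : (fun t => C (i t) (Function.update (x t) j (y t)))
        = fun t => a (i t) * y t + C (i t) (Function.update (x t) j 0) := by
      funext t
      rw [ha (i t) (Function.update (x t) j (y t)), Function.update_self, Function.update_idem]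
    rw [h1]; exact hz

theorem different_slopes (C : Fin (2 * p - 1) → (Fin m → ZMod p) → ZMod p)
    (hC : ∀ i, IsLatin (C i)) (j : Fin m) (a : Fin (2 * p - 1) → ZMod p)
    (ha : ∀ i, AffineIn (C i) j (a i)) (i0 i1 : Fin (2 * p - 1)) (hne : a i0 ≠ a i1) :
    HasTransversal C := by
  have hp1 := hp.out.one_le
  obtain ⟨e, he, hper⟩ := exists_per_ne_zero (p := p) (by rw [Fintype.card_fin]; omega) a
    (fun i => slope_ne_zero (hC i) (ha i)) i0 i1 hne
  let E : ZMod p ≃ Fin p := Fintype.equivFinOfCardEq (ZMod.card p)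
  obtain ⟨y, hy, hz⟩ := exists_rainbow' E (fun s => a (e s))
    (fun t => C (e (E t)) (Function.update (fun _ => t) j 0)) hper
  exact transversal_of_rainbow C j a ha (fun t => e (E t)) (he.comp E.injective)
    (fun t _ => t) (fun _ _ => Function.bijective_id) y hy hz

theorem sum_bij {f : ZMod p → ZMod p} (hf : Function.Bijective f) : ∑ t, f t = ∑ t : ZMod p, t :=
  (Equiv.ofBijective f hf).sum_comp fun t => t

theorem sum_id_eq_zero (h2 : p ≠ 2) : ∑ t : ZMod p, t = 0 := by
  have h := FiniteField.sum_pow_lt_card_sub_one (ZMod p) 1 (by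
    rw [ZMod.card]; have := hp.out.two_le; omega)
  simpa using h

/-- Hall's theorem for `ZMod p`. -/
theorem hall (d : ZMod p → ZMod p) (hd : ∑ t, d t = 0) :
    ∃ y : ZMod p → ZMod p, Function.Bijective y ∧ Function.Bijective fun t => y t + d t := by
  classical
  obtain ⟨k, rfl⟩ : ∃ k, p = k + 1 := ⟨p - 1, by have := hp.out.two_le; omega⟩
  let E : ZMod (k + 1) ≃ Fin (k + 1) := Fintype.equivFinOfCardEq (ZMod.card _)
  let a : Fin (k + 1) → ZMod (k + 1) := fun s => if s = 0 then 0 else 1
  have hper : ∑ τ : Perm (Fin (k + 1)), ∏ t, a t ^ (τ t : ℕ) ≠ 0 := by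
    have h1 : ∀ τ : Perm (Fin (k + 1)), ∏ t, a t ^ (τ t : ℕ) = if τ 0 = 0 then 1 else 0 := by
      intro τ
      rw [Fin.prod_univ_succ]
      simp only [a, if_true, Fin.succ_ne_zero, if_false, one_pow, Finset.prod_const_one, mul_one]
      split_ifs with h
      · rw [h]; simp
      · exact zero_pow fun h' => h (Fin.ext h')
    simp_rw [h1]
    rw [← Equiv.sum_comp (Equiv.Perm.decomposeFin (n := k)).symm, Fintype.sum_prod_type]
    simp only [Equiv.Perm.decomposeFin_symm_apply_zero]
    rw [Finset.sum_eq_single (0 : Fin (k + 1))]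
    · simp only [if_true, Finset.sum_const, Finset.card_univ, Fintype.card_perm, Fintype.card_fin,
        nsmul_eq_mul, mul_one]
      intro h
      have h3 := (ZMod.natCast_eq_zero_iff _ _).1 h
      have h4 := (hp.out.dvd_factorial).1 h3
      omega
    · intro b _ hb; simp [hb]
    · intro h; exact absurd (Finset.mem_univ _) h
  let t0 : ZMod (k + 1) := E.symm 0
  obtain ⟨y, hy, hz⟩ := exists_rainbow' E a (fun t => if t = t0 then 0 else d t) hper
  have hE : ∀ t, E t = 0 ↔ t = t0 := fun t => (Equiv.eq_symm_apply E).symm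
  have h5 : ∀ t, a (E t) * y t + (if t = t0 then 0 else d t)
      = (y t + d t) - if t = t0 then y t0 + d t0 else 0 := by
    intro t
    by_cases ht : t = t0
    · simp [a, ht, (hE t0).2 rfl]
    · simp [a, ht, mt (hE t).1 ht]
  have h6 := sum_bij hz
  simp_rw [h5] at h6
  rw [Finset.sum_sub_distrib, Finset.sum_add_distrib, hd, sum_bij hy] at h6
  simp only [Finset.sum_ite_eq', Finset.mem_univ, if_true, add_zero, sub_eq_self] at h6
  refine ⟨y, hy, ?_⟩
  simp_rw [h5, h6] at hz
  simpa using hz

/-- A zero-sum rainbow diagonal gives a transversal when all slopes in coordinate `j` agree. -/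
theorem transversal_of_zero_sum {k : ℕ} (C : Fin k → (Fin m → ZMod p) → ZMod p) (j : Fin m)
    (a : ZMod p) (ha0 : a ≠ 0) (ha : ∀ i, AffineIn (C i) j a) (i : ZMod p → Fin k)
    (hi : Function.Injective i) (x : ZMod p → Fin m → ZMod p)
    (hx : ∀ l, l ≠ j → Function.Bijective fun t => x t l)
    (hs : ∑ t, C (i t) (Function.update (x t) j 0) = 0) : HasTransversal C := by
  obtain ⟨y, hy, hz⟩ := hall _ hs
  refine transversal_of_rainbow C j (fun _ => a) ha i hi x hx (fun t => a⁻¹ * y t) ?_ ?_
  · exact (Equiv.mulLeft₀ a⁻¹ (inv_ne_zero ha0)).bijective.comp hy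
  · simpa [mul_inv_cancel_left₀ ha0] using hz

/-- Peeling off the affine coordinates. -/
theorem affine_expand {f : (Fin m → ZMod p) → ZMod p} (a : Fin m → ZMod p) (J : Finset (Fin m))
    (ha : ∀ j ∈ J, AffineIn f j (a j)) (x : Fin m → ZMod p) :
    f x = ∑ j ∈ J, a j * x j + f (fun l => if l ∈ J then 0 else x l) := by
  induction J using Finset.induction_on with
  | empty => simp
  | insert j J hj ih =>
    rw [Finset.sum_insert hj, ih fun l hl => ha l (Finset.mem_insert_of_mem hl),
      ha j (Finset.mem_insert_self _ _) (fun l => if l ∈ J then 0 else x l)]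
    have h1 : Function.update (fun l => if l ∈ J then 0 else x l) j 0
        = fun l => if l ∈ insert j J then 0 else x l := by
      funext l
      by_cases hl : l = j
      · subst hl; simp
      · simp [hl]
    rw [h1, if_neg hj]; ring

theorem zero_sum_core (h2 : p ≠ 2) (C : Fin (2 * p - 1) → (Fin m → ZMod p) → ZMod p)
    (hC : ∀ i, IsLatin (C i)) (K : Finset (Fin m)) (hK : K.card ≤ 2) :
    ∃ (i : ZMod p → Fin (2 * p - 1)) (x : ZMod p → Fin m → ZMod p), Function.Injective i ∧
      (∀ l, Function.Bijective fun t => x t l) ∧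
      ∑ t, C (i t) (fun l => if l ∈ Kᶜ then 0 else x t l) = 0 := by
  have hp2 := hp.out.two_le
  have : Nonempty (Fin (2 * p - 1)) := ⟨⟨0, by omega⟩⟩
  have hN : 2 * Fintype.card (ZMod p) ≤ Fintype.card (Fin (2 * p - 1)) + 1 := by
    rw [ZMod.card, Fintype.card_fin]; omega
  have h012 : K.card = 0 ∨ K.card = 1 ∨ K.card = 2 := by omega
  rcases h012 with h | h | h
  · rw [Finset.card_eq_zero] at h
    subst h
    obtain ⟨c, u, hc, hu, hw⟩ := drisko hN (fun i v => v + C i fun _ => 0)
      (fun i => add_left_injective _)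
    refine ⟨c, fun t _ => t, hc, fun _ => Function.bijective_id, ?_⟩
    have h3 : ∑ t, (u t + C (c t) fun _ => 0) = ∑ t : ZMod p, t := Finset.sum_congr rfl fun t _ => hw t
    rw [Finset.sum_add_distrib, sum_bij (Finite.injective_iff_bijective.1 hu), add_eq_left] at h3
    simpa using h3
  · obtain ⟨k1, rfl⟩ := Finset.card_eq_one.1 h
    obtain ⟨c, u, hc, hu, hw⟩ := drisko hN (fun i v => C i (Function.update (fun _ => 0) k1 v))
      (fun i => hC i _ k1)
    refine ⟨c, fun t _ => u t, hc, fun _ => Finite.injective_iff_bijective.1 hu, ?_⟩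
    refine Eq.trans (Finset.sum_congr rfl fun t _ => ?_) (sum_id_eq_zero h2)
    refine Eq.trans ?_ (hw t)
    congr 1
    funext l
    by_cases hl : l = k1
    · subst hl; simp
    · simp [hl]
  · obtain ⟨k1, k2, hk, rfl⟩ := Finset.card_eq_two.1 h
    have hex : ∀ (i : Fin (2 * p - 1)) (v : ZMod p), ∃ w : ZMod p,
        C i (Function.update (Function.update (fun _ => 0) k1 v) k2 w) = 0 := fun i v =>
      (Finite.injective_iff_surjective.1 (hC i (Function.update (fun _ => 0) k1 v) k2)) 0
    choose σ hσ using hex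
    have hinj : ∀ i, Function.Injective (σ i) := by
      intro i v v' hv
      have e1 := hσ i v
      have e2 := hσ i v'
      rw [Function.update_comm hk] at e1 e2
      rw [← hv] at e2
      exact hC i (Function.update (fun _ => 0) k2 (σ i v)) k1 (e1.trans e2.symm)
    obtain ⟨c, u, hc, hu, hw⟩ := drisko hN σ hinj
    refine ⟨c, fun t l => if l = k1 then u t else t, hc, fun l => ?_, ?_⟩
    · by_cases hl : l = k1
      · simpa [hl] using Finite.injective_iff_bijective.1 hu
      · simp only [hl, if_false]; exact Function.bijective_id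
    · refine Finset.sum_eq_zero fun t _ => ?_
      refine Eq.trans ?_ (hσ (c t) (u t))
      rw [hw t]
      congr 1
      funext l
      by_cases hl2 : l = k2
      · subst hl2; simp [Ne.symm hk]
      · by_cases hl1 : l = k1
        · subst hl1; simp [Function.update_of_ne hl2]
        · simp [hl1, hl2]

theorem all_but_two (h2 : p ≠ 2) (C : Fin (2 * p - 1) → (Fin m → ZMod p) → ZMod p)
    (hC : ∀ i, IsLatin (C i)) (K : Finset (Fin m)) (hK : K.card ≤ 2) (hKu : K ≠ Finset.univ)
    (ha : ∀ i, ∀ j ∉ K, ∃ a, AffineIn (C i) j a) : HasTransversal C := by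
  have hp2 := hp.out.two_le
  have ha' : ∀ i j, ∃ a, j ∉ K → AffineIn (C i) j a := by
    intro i j
    by_cases hj : j ∈ K
    · exact ⟨0, fun h => absurd hj h⟩
    · obtain ⟨a, h⟩ := ha i j hj
      exact ⟨a, fun _ => h⟩
  choose a ha using ha'
  let i0 : Fin (2 * p - 1) := ⟨0, by omega⟩
  by_cases hall : ∀ j ∉ K, ∀ i, a i j = a i0 j
  · obtain ⟨j0, hj0⟩ : ∃ j0, j0 ∉ K := by
      by_contra hcon
      push Not at hcon
      exact hKu (Finset.eq_univ_of_forall hcon)
    obtain ⟨i, x, hi, hx, hs⟩ := zero_sum_core h2 C hC K hK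
    refine transversal_of_zero_sum C j0 (a i0 j0) (slope_ne_zero (hC i0) (ha i0 j0 hj0))
      (fun i => hall j0 hj0 i ▸ ha i j0 hj0) i hi x (fun l _ => hx l) ?_
    have h3 : ∀ t, C (i t) (Function.update (x t) j0 0)
        = (∑ j ∈ Kᶜ, a i0 j * x t j + C (i t) (fun l => if l ∈ Kᶜ then 0 else x t l))
          - a i0 j0 * x t j0 := by
      intro t
      rw [← affine_expand (a i0) Kᶜ (fun j hj => hall j (Finset.mem_compl.1 hj) (i t) ▸
        ha (i t) j (Finset.mem_compl.1 hj)) (x t), ha (i t) j0 hj0 (x t), hall j0 hj0 (i t)]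
      ring
    simp_rw [h3]
    rw [Finset.sum_sub_distrib, Finset.sum_add_distrib, hs, Finset.sum_comm, ← Finset.mul_sum,
      sum_bij (hx j0), sum_id_eq_zero h2]
    rw [Finset.sum_eq_zero fun j _ => by
      rw [← Finset.mul_sum, sum_bij (hx j), sum_id_eq_zero h2, mul_zero]]
    simp
  · push Not at hall
    obtain ⟨j, hj, i, hne⟩ := hall
    exact different_slopes C hC j (fun i => a i j) (fun i => ha i j hj) i i0 hne

theorem three_affine (f : (Fin m → ZMod 3) → ZMod 3) (hf : IsLatin f) (j : Fin m) :
    ∃ a, AffineIn f j a := by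
  let s : (Fin m → ZMod 3) → ZMod 3 := fun x =>
    f (Function.update x j 1) - f (Function.update x j 0)
  have h1 : ∀ g : ZMod 3 → ZMod 3, Function.Injective g → ∀ v, g v = (g 1 - g 0) * v + g 0 := by
    decide
  have h2 : ∀ g g' : ZMod 3 → ZMod 3, Function.Injective g → Function.Injective g' →
      (∀ v, g v ≠ g' v) → g 1 - g 0 = g' 1 - g' 0 := by
    decide
  have h3 : ∀ x l v, s (Function.update x l v) = s x := by
    intro x l v
    by_cases hl : l = j
    · subst hl; simp only [s, Function.update_idem]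
    by_cases hv : v = x l
    · rw [hv, Function.update_eq_self]
    refine h2 _ _ (hf (Function.update x l v) j) (hf x j) fun w hw => hv ?_
    rw [Function.update_comm hl] at hw
    have h4 : f (Function.update x j w)
        = f (Function.update (Function.update x j w) l (x l)) := by
      congr 1
      funext r
      by_cases hr : r = l
      · subst hr; simp [Function.update_of_ne hl]
      · simp [Function.update_of_ne hr]
    rw [h4] at hw
    exact hf (Function.update x j w) l hw
  have h5 : ∀ (S : Finset (Fin m)) (x : Fin m → ZMod 3),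
      s (fun l => if l ∈ S then x l else 0) = s fun _ => 0 := by
    intro S x
    induction S using Finset.induction_on with
    | empty => simp
    | insert r S _ ih =>
      rw [← ih, ← h3 (fun l => if l ∈ S then x l else 0) r (x r)]
      congr 1
      funext l
      by_cases hl : l = r
      · subst hl; simp
      · simp [hl]
  refine ⟨s fun _ => 0, fun x => ?_⟩
  have h6 := h5 Finset.univ x
  simp only [Finset.mem_univ, if_true] at h6
  rw [← h6]
  have h7 := h1 _ (hf x j) (x j)
  rw [Function.update_eq_self] at h7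
  exact h7

theorem order_three (hm : 1 ≤ m) (C : Fin 5 → (Fin m → ZMod 3) → ZMod 3)
    (hC : ∀ i, IsLatin (C i)) : HasTransversal C := by
  have : Fact (Nat.Prime 3) := ⟨Nat.prime_three⟩
  refine all_but_two (p := 3) (by norm_num) C hC ∅ (by simp) ?_
    fun i j _ => three_affine (C i) (hC i) j
  intro h
  exact Finset.notMem_empty (⟨0, hm⟩ : Fin m) (h ▸ Finset.mem_univ _)

end Pool.Agent.P.MP_50d982_co
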